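import Pool.Agent.Q188.FC.StmK
import Pool.Agent.H241R3.FV.Base

/-! # FC-DD: determinant of the derivative in `p` -/

set_option autoImplicit false

open MeasureTheory Metric Matrix

namespace Pool.Agent.Q299.FC.DD

open Pool.Agent.W716.FV (E gam gd UU)
open Pool.Agent.H241R3.FV (Sph act mat det_mat)
open Pool.Agent.Q188.FC

theorem main (h1 : BoostAlg) (h2 : CcMom) : DetD := by
  intro n p hp ψ hψ L hL
  obtain ⟨hg1, -, -, hNL, hdet, -⟩ := h1 n p hp
  obtain ⟨-, hsym, hq, -⟩ := h2 n ψ hψ
  set N := mat (NNL p) with hN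
  have hNd : N.det = lf p := by rw [hN, ← det_mat, hdet]
  have hNap : ∀ i j, (NN p (EuclideanSpace.single j 1)) i = N i j := by
    intro i j
    rw [hN, ← hNL]
    rfl
  have hin : ∀ (u v : E n), (inner ℝ u v : ℝ) = ∑ k, u k * v k := by
    intro u v
    simp [PiLp.inner_apply, mul_comm]
  have hm : mat L = -(Nᵀ * (1 - Xm ψ) * N) := by
    ext i j
    have e1 : mat L i j = (inner ℝ (L (EuclideanSpace.single j 1)) (EuclideanSpace.single i 1) : ℝ) := by
      rw [hin]
      simp [mat, PiLp.single_apply]
    rw [e1, hL, hin, hq]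
    simp only [hNap]
    have e2 : (Nᵀ * (1 - Xm ψ) * N) i j =
        ∑ k, N k j * N k i - ∑ k, ∑ l, N k j * Xm ψ k l * N l i := by
      rw [Matrix.mul_sub, Matrix.mul_one, Matrix.sub_mul, Matrix.sub_apply, Matrix.mul_apply,
        Matrix.mul_apply]
      congr 1
      · refine Finset.sum_congr rfl fun k _ => ?_
        rw [Matrix.transpose_apply]
        ring
      · refine Finset.sum_congr rfl fun k _ => ?_
        rw [Matrix.mul_apply, Finset.sum_mul]
        refine Finset.sum_congr rfl fun l _ => ?_
        rw [Matrix.transpose_apply]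
        have := hsym.apply k l
        rw [this]
        ring
    rw [Matrix.neg_apply, e2]
    ring
  rw [det_mat, hm, Matrix.det_neg, Matrix.det_mul, Matrix.det_mul, Matrix.det_transpose, hNd,
    abs_mul, abs_mul, abs_mul, abs_pow, abs_neg, abs_one, one_pow, one_mul,
    abs_of_nonneg (zero_le_one.trans hg1)]
  ring

end Pool.Agent.Q299.FC.DD
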