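import Pool.Agent.Q188.FC.StmG

/-! Project FC (helper188): job DL, lower bound for a determinant (helper299). -/

set_option autoImplicit false

namespace Pool.Agent.Q299.FC.DL

open Pool.Agent.Q188.FC
open Finset

theorem exp_le {t : ℝ} (ht : |t| ≤ 6 / 25) : Real.exp (-(t + 3 / 5 * t ^ 2)) ≤ 1 - t := by
  have h1 : 0 < 1 - t := by linarith [le_of_abs_le ht]
  rw [← Real.exp_log h1]
  apply Real.exp_le_exp.2
  have h2 := Real.abs_log_sub_add_sum_range_le (x := t) (by linarith) 6
  rw [sum_range_succ, sum_range_succ, sum_range_succ, sum_range_succ, sum_range_succ, sum_range_succ,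
    sum_range_zero] at h2
  have h3 := neg_le_of_abs_le h2
  have h4 : |t| ^ 7 / (1 - |t|) ≤ |t| ^ 7 / (19 / 25) :=
    div_le_div_of_nonneg_left (by positivity) (by norm_num) (by linarith)
  norm_num at h3
  have key : t + t ^ 2 / 2 + t ^ 3 / 3 + t ^ 4 / 4 + t ^ 5 / 5 + t ^ 6 / 6 + |t| ^ 7 / (19 / 25) ≤ t + 3 / 5 * t ^ 2 := by
    set s := |t| with hs
    have hs0 : 0 ≤ s := abs_nonneg t
    have e2 : t ^ 2 = s ^ 2 := (sq_abs t).symm
    have e3 : t ^ 3 ≤ s ^ 3 := by
      rw [hs, ← abs_pow]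
      exact le_abs_self _
    have e4 : t ^ 4 = s ^ 4 := by
      have : t ^ 4 = (t ^ 2) ^ 2 := by ring
      rw [this, e2]; ring
    have e5 : t ^ 5 ≤ s ^ 5 := by
      rw [hs, ← abs_pow]
      exact le_abs_self _
    have e6 : t ^ 6 = s ^ 6 := by
      have : t ^ 6 = (t ^ 2) ^ 3 := by ring
      rw [this, e2]; ring
    have p3 : s ^ 3 ≤ 6 / 25 * s ^ 2 := by
      have : s ^ 3 = s * s ^ 2 := by ring
      rw [this]
      exact mul_le_mul_of_nonneg_right ht (by positivity)
    have p4 : s ^ 4 ≤ (6 / 25) ^ 2 * s ^ 2 := by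
      have : s ^ 4 = s ^ 2 * s ^ 2 := by ring
      rw [this]
      exact mul_le_mul_of_nonneg_right (pow_le_pow_left₀ hs0 ht 2) (by positivity)
    have p5 : s ^ 5 ≤ (6 / 25) ^ 3 * s ^ 2 := by
      have : s ^ 5 = s ^ 3 * s ^ 2 := by ring
      rw [this]
      exact mul_le_mul_of_nonneg_right (pow_le_pow_left₀ hs0 ht 3) (by positivity)
    have p6 : s ^ 6 ≤ (6 / 25) ^ 4 * s ^ 2 := by
      have : s ^ 6 = s ^ 4 * s ^ 2 := by ring
      rw [this]
      exact mul_le_mul_of_nonneg_right (pow_le_pow_left₀ hs0 ht 4) (by positivity)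
    have p7 : s ^ 7 ≤ (6 / 25) ^ 5 * s ^ 2 := by
      have : s ^ 7 = s ^ 5 * s ^ 2 := by ring
      rw [this]
      exact mul_le_mul_of_nonneg_right (pow_le_pow_left₀ hs0 ht 5) (by positivity)
    have p2 : 0 ≤ s ^ 2 := by positivity
    rw [e2, e4, e6]
    nlinarith
  linarith

theorem main : DetLog := by
  intro n X hX hhs
  have hA : X.IsHermitian := by
    rw [Matrix.IsHermitian, Matrix.conjTranspose_eq_transpose_of_trivial]
    exact hX
  set l := hA.eigenvalues with hl
  have hdet : (1 - X).det = ∏ i, (1 - l i) := by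
    have h1 := Matrix.eval_charpoly X (1 : ℝ)
    rw [hA.charpoly_eq, Polynomial.eval_prod] at h1
    have h2 : (Matrix.scalar (Fin n)) (1 : ℝ) = 1 := map_one _
    rw [h2] at h1
    rw [← h1]
    refine prod_congr rfl fun i _ => ?_
    simp [hl]
  have htr : X.trace = ∑ i, l i := by
    have := hA.trace_eq_sum_eigenvalues
    simpa [hl] using this
  have hsum : hs X = ∑ i, l i ^ 2 := by
    have h1 : hs X = (X * X).trace := by
      unfold hs
      rw [Matrix.trace]
      refine sum_congr rfl fun i _ => ?_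
      rw [Matrix.diag_apply, Matrix.mul_apply]
      refine sum_congr rfl fun j _ => ?_
      rw [sq, ← Matrix.IsSymm.apply hX i j]
    rw [h1]
    have h2 := hA.spectral_theorem
    have h3 : X * X = Unitary.conjStarAlgAut ℝ _ hA.eigenvectorUnitary
        (Matrix.diagonal (RCLike.ofReal ∘ hA.eigenvalues) * Matrix.diagonal (RCLike.ofReal ∘ hA.eigenvalues)) := by
      rw [map_mul, ← h2]
    rw [h3, Unitary.conjStarAlgAut_apply, Matrix.trace_mul_comm, ← mul_assoc]
    have h4 : (star hA.eigenvectorUnitary : Matrix (Fin n) (Fin n) ℝ) * (hA.eigenvectorUnitary : Matrix (Fin n) (Fin n) ℝ) = 1 := by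
      exact Unitary.coe_star_mul_self hA.eigenvectorUnitary
    rw [h4, one_mul, Matrix.diagonal_mul_diagonal, Matrix.trace_diagonal]
    refine sum_congr rfl fun i _ => ?_
    simp [hl, sq]
  have hli : ∀ i, |l i| ≤ 6 / 25 := by
    intro i
    have h1 : l i ^ 2 ≤ (6 / 25) ^ 2 := by
      have := single_le_sum (f := fun i => l i ^ 2) (s := univ) (fun _ _ => by positivity) (mem_univ i)
      have h2 : l i ^ 2 ≤ hs X := by rw [hsum]; exact this
      refine h2.trans (hhs.trans (by norm_num))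
    exact abs_le_of_sq_le_sq h1 (by norm_num)
  rw [hdet, htr, hsum]
  have e : -(∑ i, l i + 3 / 5 * ∑ i, l i ^ 2) = ∑ i, -(l i + 3 / 5 * l i ^ 2) := by
    rw [sum_neg_distrib, sum_add_distrib, mul_sum]
  rw [e, Real.exp_sum]
  exact prod_le_prod (fun i _ => (Real.exp_pos _).le) fun i _ => exp_le (hli i)

end Pool.Agent.Q299.FC.DL
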