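import Pool.Agent.Q188.FC.StmK
import Pool.Agent.H241R3.FV.Base
import Pool.Agent.H241R3.FV.TMat

/-! # FC-DT: bound for the numerator -/

set_option autoImplicit false

open MeasureTheory Metric Matrix

namespace Pool.Agent.Q299.FC.DT

open Pool.Agent.W716.FV (E gam gd UU)
open Pool.Agent.H241R3.FV (Sph act mat det_mat)
open Pool.Agent.Q188.FC

lemma dot_eq {n : ℕ} (z : E n) : dotProduct (fun k => z k) (fun k => z k) = ‖z‖ ^ 2 := by
  rw [EuclideanSpace.norm_sq_eq]
  simp only [dotProduct]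
  refine Finset.sum_congr rfl fun i _ => ?_
  rw [Real.norm_eq_abs, sq_abs]
  ring

lemma quad_act {n : ℕ} (G A : Matrix (Fin n) (Fin n) ℝ) (h : A.transpose * G * A = 1) (z : E n) :
    (∑ i, ∑ j, (act A z) i * G i j * (act A z) j) = ‖z‖ ^ 2 := by
  have h1 : (∑ i, ∑ j, (act A z) i * G i j * (act A z) j) =
      dotProduct (A.mulVec (fun k => z k)) (G.mulVec (A.mulVec (fun k => z k))) := by
    simp only [dotProduct, Matrix.mulVec, act, Finset.mul_sum, mul_assoc]
  have h2 : dotProduct (A.mulVec (fun k => z k)) (G.mulVec (A.mulVec (fun k => z k))) =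
      dotProduct (fun k => z k) ((A.transpose * G * A).mulVec (fun k => z k)) := by
    rw [Matrix.mul_assoc, ← Matrix.mulVec_mulVec, ← Matrix.mulVec_mulVec,
      Matrix.dotProduct_mulVec (fun k => z k) A.transpose, Matrix.vecMul_transpose]
  rw [h1, h2, h, Matrix.one_mulVec, dot_eq]

lemma apply_mat {n : ℕ} (L : E n →L[ℝ] E n) (w : E n) (i : Fin n) :
    (L w) i = ∑ k, mat L i k * w k := by
  have hw : w = ∑ k, w k • (EuclideanSpace.single k (1 : ℝ) : E n) := by
    ext j
    simp [Pi.single_apply]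
  conv_lhs => rw [hw]
  rw [map_sum]
  simp only [map_smul]
  simp [mat, mul_comm]

lemma act_eq {n : ℕ} (A : Matrix (Fin n) (Fin n) ℝ) (z : E n) :
    act A z = ∑ j, (∑ i, A j i * z i) • (EuclideanSpace.single j (1 : ℝ) : E n) := by
  ext k
  simp [act, Pi.single_apply]

theorem main (h1 : BoostAlg) (h2 : GraphInt) (h3 : CcBasic) (_h4 : KerBound) (_h5 : KerDeriv) :
    DetT := by
  intro n hn p hp φ ψ hφ hψ hhat hmv G hG D hD hDb T hT
  obtain ⟨hg1, -, -, hNL, hdet, -, -, -, -, -, -, -, hinv, hcont, -, -, hgk⟩ := h1 n p hp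
  obtain ⟨hI1, hI2, hE1, hE2⟩ := h2 n p hp φ ψ hφ hψ hhat
  obtain ⟨-, hφc, -, -, -, -, -, -, -⟩ := h3 n φ hφ
  have hγ : (0 : ℝ) < lf p := zero_lt_one.trans_le hg1
  have hn' : (0 : ℝ) < n := by exact_mod_cast hn
  set z : E n → E n := fun y => (Lam p (φ y, y)).2 with hz
  set τ : E n → ℝ := fun y => (Lam p (φ y, y)).1 with hτ
  have hzc : Continuous z := continuous_snd.comp (hcont.comp (hφc.prodMk continuous_id))
  have hτc : Continuous τ := continuous_fst.comp (hcont.comp (hφc.prodMk continuous_id))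
  have hgdc : Continuous (fun w : E n => gd n w) := by
    unfold Pool.Agent.W716.FV.gd
    fun_prop
  have hgd0 : ∀ w : E n, 0 ≤ gd n w := by
    intro w
    unfold Pool.Agent.W716.FV.gd
    positivity
  have hr : ∀ y : E n, ‖y‖ ^ 2 - φ y ^ 2 = ‖z y‖ ^ 2 - τ y ^ 2 := fun y => (hinv (φ y, y)).symm
  -- the integrand
  set g : E n → E n → E n := fun v y => (D y v) • (gd n (z y) • z y) with hgdef
  have hDm : ∀ v : E n, Measurable (fun y => D y v) := fun v => hD.apply_continuousLinearMap v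
  have hgint : ∀ v : E n, Integrable (g v) := by
    intro v
    have hb : Integrable (fun y => √|∑ i, ∑ j, v i * G i j * v j| *
        (‖z y‖ ^ 2 * gd n (z y))) := hI1.const_mul _
    refine hb.mono' ?_ ?_
    · exact ((hDm v).smul ((hgdc.comp hzc).smul hzc).measurable).aestronglyMeasurable
    · filter_upwards [hDb] with y hy
      have hv := hy v
      rw [hr y] at hv
      have h0 : |D y v| ≤ ‖z y‖ * √|∑ i, ∑ j, v i * G i j * v j| := by
        rw [← Real.sqrt_sq (norm_nonneg (z y)), ← Real.sqrt_mul (sq_nonneg _)]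
        apply Real.abs_le_sqrt
        refine hv.trans ?_
        have hr0 : 0 ≤ ‖z y‖ ^ 2 - τ y ^ 2 := by
          rw [← hr y]
          have := (h3 n φ hφ).2.2.1 y
          have h5 := sq_le_sq' (by have := abs_le.1 this; linarith [this.1]) (abs_le.1 this).2
          linarith
        calc (‖z y‖ ^ 2 - τ y ^ 2) * ∑ i, ∑ j, v i * G i j * v j
            ≤ (‖z y‖ ^ 2 - τ y ^ 2) * |∑ i, ∑ j, v i * G i j * v j| :=
              mul_le_mul_of_nonneg_left (le_abs_self _) hr0
          _ ≤ ‖z y‖ ^ 2 * |∑ i, ∑ j, v i * G i j * v j| := by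
              refine mul_le_mul_of_nonneg_right ?_ (abs_nonneg _)
              nlinarith [sq_nonneg (τ y)]
      simp only [hgdef]
      rw [norm_smul, norm_smul, Real.norm_eq_abs, Real.norm_eq_abs, abs_of_nonneg (hgd0 _)]
      calc |D y v| * (gd n (z y) * ‖z y‖)
          ≤ (‖z y‖ * √|∑ i, ∑ j, v i * G i j * v j|) * (gd n (z y) * ‖z y‖) :=
            mul_le_mul_of_nonneg_right h0 (mul_nonneg (hgd0 _) (norm_nonneg _))
        _ = _ := by ring
  -- the matrix
  set e : Fin n → E n := fun j => EuclideanSpace.single j (1 : ℝ) with he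
  set M : Matrix (Fin n) (Fin n) ℝ := fun i j => (∫ y, g (e j) y) i with hM
  have hTv : ∀ v : E n, T v = (lf p)⁻¹ • NNL p (∫ y, g v y) := by
    intro v
    rw [hT v, ← ContinuousLinearMap.integral_comp_comm (NNL p) (hgint v), ← integral_smul]
    congr 1
    ext1 y
    have h5 : gk p (φ y) y = (lf p)⁻¹ • NNL p (gd n (z y) • z y) := by rw [hgk, hNL]
    rw [h5]
    simp only [hgdef]
    rw [map_smul (NNL p) (D y v), smul_comm]
  have hmT : mat T = (lf p)⁻¹ • (mat (NNL p) * M) := by
    ext i j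
    have h5 : mat T i j = (T (e j)) i := rfl
    rw [h5, hTv (e j), PiLp.smul_apply, apply_mat, Matrix.smul_apply, Matrix.mul_apply]
  have hdT : T.det = (lf p)⁻¹ ^ n * (lf p * M.det) := by
    rw [det_mat, hmT, Matrix.det_smul, Matrix.det_mul, ← det_mat, hdet, Fintype.card_fin]
  -- the constant
  set c : ℝ := lf p * (1 - (sv ψ + bv ψ p) / (2 * n)) with hc
  have hEb : ∫ y, (‖z y‖ ^ 2 * gd n (z y) - 1 / 2 * (τ y ^ 2 * gd n (z y))) = n * c := by
    rw [integral_sub hI1 (hI2.const_mul _), integral_const_mul, hE1, hE2, hmv, inner_zero_right, hc]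
    field_simp
    ring
  have hr0 : ∀ y : E n, 0 ≤ ‖z y‖ ^ 2 - τ y ^ 2 := by
    intro y
    rw [← hr y]
    have := (h3 n φ hφ).2.2.1 y
    have h5 := sq_le_sq' (by have := abs_le.1 this; linarith [this.1]) (abs_le.1 this).2
    linarith
  have hc0 : 0 ≤ c := by
    have h5 : 0 ≤ (n : ℝ) * c := by
      rw [← hEb]
      refine integral_nonneg fun y => ?_
      have h6 : ‖z y‖ ^ 2 * gd n (z y) - 1 / 2 * (τ y ^ 2 * gd n (z y)) =
          (1 / 2 * ‖z y‖ ^ 2 + 1 / 2 * (‖z y‖ ^ 2 - τ y ^ 2)) * gd n (z y) := by ring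
      show 0 ≤ ‖z y‖ ^ 2 * gd n (z y) - 1 / 2 * (τ y ^ 2 * gd n (z y))
      rw [h6]
      have := hr0 y
      have := hgd0 (z y)
      positivity
    exact nonneg_of_mul_nonneg_right h5 hn'
  have hMd : |M.det| ≤ c ^ n * √G.det := by
    refine Pool.Agent.H241R3.FV.TMat.taskMat n hn M G hG c hc0 fun A hA => ?_
    have h6 : ∀ i j, M i j = ∫ y, (g (e j) y) i := by
      intro i j
      have := ContinuousLinearMap.integral_comp_comm
        (EuclideanSpace.proj i : EuclideanSpace ℝ (Fin n) →L[ℝ] ℝ) (hgint (e j))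
      simpa [hM] using this.symm
    have h7 : ∀ i j, Integrable (fun y => (g (e j) y) i * A j i) := by
      intro i j
      exact ((EuclideanSpace.proj i : EuclideanSpace ℝ (Fin n) →L[ℝ] ℝ).integrable_comp
        (hgint (e j))).mul_const _
    have h7s : Integrable (fun y => ∑ i, ∑ j, (g (e j) y) i * A j i) :=
      integrable_finsetSum _ fun i _ => integrable_finsetSum _ fun j _ => h7 i j
    have h8 : ∀ y, ∑ i, ∑ j, (g (e j) y) i * A j i = gd n (z y) * D y (act A (z y)) := by
      intro y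
      rw [act_eq, map_sum, Finset.mul_sum, Finset.sum_comm]
      refine Finset.sum_congr rfl fun j _ => ?_
      rw [map_smul, smul_eq_mul, Finset.sum_mul, Finset.mul_sum]
      refine Finset.sum_congr rfl fun i _ => ?_
      have h9 : (g (e j) y) i = D y (e j) * (gd n (z y) * (z y) i) := by
        simp [hgdef]
      rw [h9]
      simp only [he]
      ring
    have h5 : (M * A).trace = ∫ y, gd n (z y) * D y (act A (z y)) := by
      have e1 : (M * A).trace = ∑ i, ∑ j, ∫ y, (g (e j) y) i * A j i := by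
        rw [Matrix.trace]
        refine Finset.sum_congr rfl fun i _ => ?_
        rw [Matrix.diag_apply, Matrix.mul_apply]
        refine Finset.sum_congr rfl fun j _ => ?_
        rw [h6, integral_mul_const]
      rw [e1]
      have e2 : ∀ i, ∑ j, ∫ y, (g (e j) y) i * A j i = ∫ y, ∑ j, (g (e j) y) i * A j i :=
        fun i => (integral_finsetSum _ fun j _ => h7 i j).symm
      rw [Finset.sum_congr rfl fun i _ => e2 i,
        ← integral_finsetSum _ fun i _ => integrable_finsetSum _ fun j _ => h7 i j]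
      exact integral_congr_ae (Filter.Eventually.of_forall h8)
    have h5i : Integrable (fun y => gd n (z y) * D y (act A (z y))) :=
      h7s.congr (Filter.Eventually.of_forall h8)
    rw [h5, ← hEb]
    refine integral_mono_ae h5i (hI1.sub (hI2.const_mul _)) ?_
    · filter_upwards [hDb] with y hy
      have hv := hy (act A (z y))
      rw [hr y, quad_act G A hA] at hv
      have h6 : D y (act A (z y)) ≤ ‖z y‖ ^ 2 - τ y ^ 2 / 2 := by
        refine abs_le_of_sq_le_sq' ?_ ?_ |>.2
        · refine hv.trans ?_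
          nlinarith [sq_nonneg (τ y ^ 2)]
        · have := hr0 y
          nlinarith [sq_nonneg (‖z y‖)]
      show gd n (z y) * D y (act A (z y)) ≤
        ‖z y‖ ^ 2 * gd n (z y) - 1 / 2 * (τ y ^ 2 * gd n (z y))
      have h7 := mul_le_mul_of_nonneg_left h6 (hgd0 (z y))
      linarith
  -- end
  rw [hdT, abs_mul, abs_mul, abs_pow, abs_of_pos (inv_pos.2 hγ), abs_of_pos hγ]
  have h8 : (1 - (sv ψ + bv ψ p) / (2 * n)) ^ n ≤ Real.exp (-(sv ψ + bv ψ p) / 2) := by
    have h9 : 0 ≤ 1 - (sv ψ + bv ψ p) / (2 * n) := by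
      rw [hc] at hc0
      exact nonneg_of_mul_nonneg_right hc0 hγ
    have h10 : 1 - (sv ψ + bv ψ p) / (2 * n) ≤ Real.exp (-((sv ψ + bv ψ p) / (2 * n))) := by
      have := Real.add_one_le_exp (-((sv ψ + bv ψ p) / (2 * n)))
      linarith
    calc (1 - (sv ψ + bv ψ p) / (2 * n)) ^ n
        ≤ Real.exp (-((sv ψ + bv ψ p) / (2 * n))) ^ n := pow_le_pow_left₀ h9 h10 n
      _ = Real.exp (-(sv ψ + bv ψ p) / 2) := by
          rw [← Real.exp_nat_mul]
          congr 1
          field_simp
  calc (lf p)⁻¹ ^ n * (lf p * |M.det|) ≤ (lf p)⁻¹ ^ n * (lf p * (c ^ n * √G.det)) := by gcongr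
    _ = lf p * (1 - (sv ψ + bv ψ p) / (2 * n)) ^ n * √G.det := by
        rw [hc, mul_pow, inv_pow]
        field_simp
    _ ≤ lf p * Real.exp (-(sv ψ + bv ψ p) / 2) * √G.det := by gcongr

end Pool.Agent.Q299.FC.DT
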