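import Pool.Agent.Q188.FC.StmK

/-! # FC-MO: monotonicity of the field -/

set_option autoImplicit false

open MeasureTheory Metric

namespace Pool.Agent.Q299.FC.MO

open Pool.Agent.W716.FV (E gam gd UU)
open Pool.Agent.Q188.FC

theorem main (h1 : BoostAlg) (h2 : HatEx) (h3 : GGDer) (h4 : GGForm) (h5 : GGHat) (h6 : XUp) :
    MonoF := by
  intro n φ hφ p hp L hL
  obtain ⟨ψ, hψ, hhat⟩ := h2 n p hp φ hφ
  obtain ⟨L', hL', hf⟩ := h3 n φ hφ p hp
  have hLL : L = L' := hL.unique hL'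
  subst hLL
  obtain ⟨-, -, -, -, -, hNN, -⟩ := h1 n p hp
  have key : ∀ a : E n, (inner ℝ (L a) a : ℝ) = -‖NN p a‖ ^ 2 + qX ψ (NN p a) (NN p a) := by
    intro a
    rw [hf a a, h4 n p hp φ ψ hφ hψ hhat a a, real_inner_self_eq_norm_sq]
    ring
  refine ⟨fun a => ?_, fun h0 a => ?_⟩
  · rw [key a]
    have := ((h6 n ψ hψ).2 (NN p a)).1
    linarith
  · rw [key a]
    have hm : mv ψ = 0 := ((h5 n p hp φ ψ hφ hψ hhat).2.1).1 h0
    have hx := ((h6 n ψ hψ).2 (NN p a)).2 hm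
    have hn : ‖NN p a‖ ^ 2 = ‖a‖ ^ 2 + lf p ^ 2 * (inner ℝ p a * inner ℝ p a) := by
      rw [← real_inner_self_eq_norm_sq, hNN a a, real_inner_self_eq_norm_sq]
    have hnn : 0 ≤ lf p ^ 2 * ((inner ℝ p a : ℝ) * inner ℝ p a) :=
      mul_nonneg (sq_nonneg _) (mul_self_nonneg _)
    linarith

end Pool.Agent.Q299.FC.MO
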