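import Pool.Agent.Q188.FC.StmC

/-! Project FC (helper188): job NL (helper299). -/

set_option autoImplicit false

namespace Pool.Agent.Q299.FC.NL

open Pool.Agent.Q188.FC
open Pool.Agent.W716.FV (E gam gd UU)
open MeasureTheory Metric Set

/-- Lipschitz maps on subsets do not increase null sets -/
theorem lip_null {n : ℕ} {s t : Set (E n)} {f : E n → E n} {K : NNReal} (hf : LipschitzOnWith K f s) (ht : t ⊆ s)
    (h0 : volume t = 0) : volume (f '' t) = 0 := by
  have hac1 : (Measure.hausdorffMeasure (Module.finrank ℝ (E n)) : Measure (E n)) ≪ volume :=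
    Measure.absolutelyContinuous_isAddHaarMeasure _ _
  have hac2 : (volume : Measure (E n)) ≪ Measure.hausdorffMeasure (Module.finrank ℝ (E n)) :=
    Measure.absolutelyContinuous_isAddHaarMeasure _ _
  apply hac2
  have h1 := (hf.mono ht).hausdorffMeasure_image_le (d := (Module.finrank ℝ (E n) : ℝ)) (by positivity)
  rw [hac1 h0, mul_zero] at h1
  exact le_antisymm h1 bot_le

theorem main : NullLL := by
  intro n s f hloc t hts h0
  have hex : ∀ c₀ : E n, ∃ r K : ℝ, c₀ ∈ s → 0 < r ∧ ∀ c ∈ s ∩ ball c₀ r, ∀ c' ∈ s ∩ ball c₀ r,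
      ‖f c - f c'‖ ≤ K * ‖c - c'‖ := by
    intro c₀
    by_cases h : c₀ ∈ s
    · obtain ⟨r, K, h1, h2⟩ := hloc c₀ h
      exact ⟨r, K, fun _ => ⟨h1, h2⟩⟩
    · exact ⟨0, 0, fun h' => absurd h' h⟩
  choose r K hrK using hex
  obtain ⟨u, hus, huc, hcov⟩ := TopologicalSpace.countable_cover_nhdsWithin (f := fun x : E n => ball x (r x))
    (s := s) (fun x hx => mem_nhdsWithin_of_mem_nhds (ball_mem_nhds x (hrK x hx).1))
  have hsub : f '' t ⊆ ⋃ x ∈ u, f '' (t ∩ ball x (r x)) := by
    rintro _ ⟨y, hy, rfl⟩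
    obtain ⟨x, hx, hxy⟩ := mem_iUnion₂.1 (hcov (hts hy))
    exact mem_iUnion₂.2 ⟨x, hx, y, ⟨hy, hxy⟩, rfl⟩
  refine measure_mono_null hsub ((measure_biUnion_null_iff huc).2 fun x hx => ?_)
  have hlip : LipschitzOnWith (K x).toNNReal f (s ∩ ball x (r x)) := by
    refine LipschitzOnWith.of_dist_le_mul fun c hc c' hc' => ?_
    rw [dist_eq_norm, dist_eq_norm]
    refine ((hrK x (hus hx)).2 c hc c' hc').trans ?_
    exact mul_le_mul_of_nonneg_right (Real.le_coe_toNNReal _) (norm_nonneg _)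
  exact lip_null hlip (inter_subset_inter_left _ hts) (measure_mono_null inter_subset_left h0)

end Pool.Agent.Q299.FC.NL
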