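import Pool.Agent.TH55.PowD
import Pool.Agent.TH989.J1594

/-! Averages of the conjugated Beurling transforms over a measure space. -/

set_option autoImplicit false
open MeasureTheory Filter Topology Set
open scoped FourierTransform SchwartzMap ENNReal

namespace Pool.Agent.Q299.FC

open Pool.Agent.TH55.PowA

variable {Λ : Type*} [MeasurableSpace Λ]

/-- the symbol of the conjugated transform, as a function of both variables -/
noncomputable def at' (c ξ : ℂ) : ℂ := bs (ξ + c * (starRingEnd ℂ) ξ)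

lemma at_meas : Measurable (fun x : ℂ × ℂ => at' x.1 x.2) := by
  unfold at'
  exact bs_meas.comp (by fun_prop)

lemma at_norm (c ξ : ℂ) : ‖at' c ξ‖ ≤ 1 := bs_norm_le _

lemma at_eq (c : ℂ) (hc : ‖c‖ < 1) (ξ : ℂ) : at' c ξ = bs (Ae c hc ξ) := by
  rw [at', Ae_apply]

lemma at_eq' (c : ℂ) (hc : ‖c‖ < 1) : at' c = fun ξ => bs (Ae c hc ξ) :=
  funext (at_eq c hc)

lemma adm_at (c : ℂ) : Adm (at' c) :=
  ⟨at_meas.comp (measurable_const.prodMk measurable_id), at_norm c⟩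

/-- the averaged symbol -/
noncomputable def sy (ν : Measure Λ) (ζ : Λ → ℂ) (g : Λ → ℂ) (ξ : ℂ) : ℂ :=
  ∫ l, g l * at' (ζ l) ξ ∂ν

/-- the exponential -/
noncomputable def ex (z ξ : ℂ) : ℂ :=
  Complex.exp (2 * (Real.pi : ℂ) * Complex.I * ((sm z ξ : ℝ) : ℂ))

lemma ex_norm (z ξ : ℂ) : ‖ex z ξ‖ = 1 := norm_ex _

lemma ex_meas : Measurable (fun x : ℂ × ℂ => ex x.1 x.2) := by
  unfold ex sm
  fun_prop

lemma T_def (m : ℂ → ℂ) (f : 𝓢(ℂ, ℂ)) (z : ℂ) : T m f z = ∫ ξ : ℂ, ex z ξ * (m ξ * Ft f ξ) := rfl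

lemma Ft_meas (f : 𝓢(ℂ, ℂ)) : Measurable (Ft f) := by
  rw [Ft_fun]
  exact (𝓕 f : 𝓢(ℂ, ℂ)).continuous.measurable

lemma T_meas2 {ζ : Λ → ℂ} (hζ : Measurable ζ) (f : 𝓢(ℂ, ℂ)) :
    Measurable (fun x : ℂ × Λ => T (at' (ζ x.2)) f x.1) := by
  have h : StronglyMeasurable (fun y : (ℂ × Λ) × ℂ =>
      ex y.1.1 y.2 * (at' (ζ y.1.2) y.2 * Ft f y.2)) := by
    refine Measurable.stronglyMeasurable ?_
    refine (ex_meas.comp ((measurable_fst.comp measurable_fst).prodMk measurable_snd)).mul ?_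
    refine (at_meas.comp ((hζ.comp (measurable_snd.comp measurable_fst)).prodMk
      measurable_snd)).mul ?_
    exact (Ft_meas f).comp measurable_snd
  exact (h.integral_prod_right (ν := (volume : Measure ℂ))).measurable

variable {ν : Measure Λ} [SigmaFinite ν]

lemma T_sy {ζ : Λ → ℂ} (hζ : Measurable ζ) {g : Λ → ℂ} (hg : Integrable g ν) (hgm : Measurable g)
    (f : 𝓢(ℂ, ℂ)) (z : ℂ) :
    T (sy ν ζ g) f z = ∫ l, g l * T (at' (ζ l)) f z ∂ν := by
  have hm : Measurable (fun x : ℂ × Λ => ex z x.1 * ((g x.2 * at' (ζ x.2) x.1) * Ft f x.1)) := by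
    refine (ex_meas.comp (measurable_const.prodMk measurable_fst)).mul ?_
    refine ((hgm.comp measurable_snd).mul (at_meas.comp ((hζ.comp measurable_snd).prodMk
      measurable_fst))).mul ?_
    exact (Ft_meas f).comp measurable_fst
  have hint : Integrable (fun x : ℂ × Λ => ex z x.1 * ((g x.2 * at' (ζ x.2) x.1) * Ft f x.1))
      ((volume : Measure ℂ).prod ν) := by
    have h0 : Integrable (fun x : ℂ × Λ => Ft f x.1 * g x.2) ((volume : Measure ℂ).prod ν) :=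
      (Ft_int f).mul_prod hg
    refine h0.mono hm.aestronglyMeasurable (Eventually.of_forall fun x => ?_)
    rw [norm_mul, ex_norm, one_mul, norm_mul, norm_mul, norm_mul]
    have := at_norm (ζ x.2) x.1
    have h1 : ‖g x.2‖ * ‖at' (ζ x.2) x.1‖ ≤ ‖g x.2‖ * 1 := by gcongr
    calc ‖g x.2‖ * ‖at' (ζ x.2) x.1‖ * ‖Ft f x.1‖ ≤ ‖g x.2‖ * 1 * ‖Ft f x.1‖ := by gcongr
      _ = _ := by ring
  calc T (sy ν ζ g) f z = ∫ ξ : ℂ, ∫ l, ex z ξ * ((g l * at' (ζ l) ξ) * Ft f ξ) ∂ν := by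
        rw [T_def]
        refine integral_congr_ae (Eventually.of_forall fun ξ => ?_)
        simp only [sy]
        rw [← integral_mul_const, ← integral_const_mul]
    _ = ∫ l, (∫ ξ : ℂ, ex z ξ * ((g l * at' (ζ l) ξ) * Ft f ξ)) ∂ν :=
        integral_integral_swap hint
    _ = _ := by
        refine integral_congr_ae (Eventually.of_forall fun l => ?_)
        simp only
        rw [T_def, ← integral_const_mul]
        refine integral_congr_ae (Eventually.of_forall fun ξ => ?_)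
        simp only
        ring

/-- **the averaged bound** -/
theorem sy_bound {p : ℝ} (hp : 1 ≤ p) {K : ℝ≥0∞}
    (hb : ∀ f : 𝓢(ℂ, ℂ), eLpNorm (T bs f) (ENNReal.ofReal p) volume
      ≤ K * eLpNorm f (ENNReal.ofReal p) volume)
    {ζ : Λ → ℂ} (hζ : Measurable ζ) (hζ1 : ∀ l, ‖ζ l‖ < 1) {g : Λ → ℂ} (hg : Integrable g ν)
    (hgm : Measurable g) (f : 𝓢(ℂ, ℂ)) :
    eLpNorm (T (sy ν ζ g) f) (ENNReal.ofReal p) volume
      ≤ (∫⁻ l, ‖g l‖ₑ ∂ν) * (K * eLpNorm f (ENNReal.ofReal p) volume) := by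
  have hp0 : 0 < p := by linarith
  have hP0 : ENNReal.ofReal p ≠ 0 := by simpa using hp0
  have hPt : ENNReal.ofReal p ≠ ∞ := ENNReal.ofReal_ne_top
  have htr : (ENNReal.ofReal p).toReal = p := ENNReal.toReal_ofReal hp0.le
  have e : ∀ u : ℂ → ℂ, eLpNorm u (ENNReal.ofReal p) volume
      = (∫⁻ z, ‖u z‖ₑ ^ p ∂volume) ^ (1 / p) := by
    intro u
    rw [eLpNorm_eq_lintegral_rpow_enorm_toReal hP0 hPt, htr]
  have hh : Measurable (Function.uncurry fun (z : ℂ) (l : Λ) => ‖g l‖ₑ * ‖T (at' (ζ l)) f z‖ₑ) := by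
    exact ((hgm.comp measurable_snd).enorm).mul (T_meas2 hζ f).enorm
  have h1 := Pool.Agent.TH989.FN.minkowski (μ := (volume : Measure ℂ)) (ν := ν) p hp
    (fun z l => ‖g l‖ₑ * ‖T (at' (ζ l)) f z‖ₑ) hh
  have h2 : eLpNorm (T (sy ν ζ g) f) (ENNReal.ofReal p) volume
      ≤ (∫⁻ z, (∫⁻ l, ‖g l‖ₑ * ‖T (at' (ζ l)) f z‖ₑ ∂ν) ^ p) ^ (1 / p) := by
    rw [e]
    refine ENNReal.rpow_le_rpow (lintegral_mono fun z => ?_) (by positivity)
    refine ENNReal.rpow_le_rpow ?_ hp0.le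
    rw [T_sy hζ hg hgm]
    refine (enorm_integral_le_lintegral_enorm _).trans (le_of_eq ?_)
    exact lintegral_congr fun l => enorm_mul _ _
  refine h2.trans (h1.trans ?_)
  rw [← lintegral_mul_const _ hgm.enorm]
  refine lintegral_mono fun l => ?_
  simp only
  have h3 : (∫⁻ z, (‖g l‖ₑ * ‖T (at' (ζ l)) f z‖ₑ) ^ p) ^ (1 / p)
      = ‖g l‖ₑ * eLpNorm (T (at' (ζ l)) f) (ENNReal.ofReal p) volume := by
    rw [e]
    have : ∀ z, (‖g l‖ₑ * ‖T (at' (ζ l)) f z‖ₑ) ^ p = ‖g l‖ₑ ^ p * ‖T (at' (ζ l)) f z‖ₑ ^ p :=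
      fun z => ENNReal.mul_rpow_of_nonneg _ _ hp0.le
    rw [lintegral_congr this, lintegral_const_mul' _ _ (ENNReal.rpow_ne_top_of_nonneg hp0.le
      enorm_ne_top), ENNReal.mul_rpow_of_nonneg _ _ (by positivity), ← ENNReal.rpow_mul,
      mul_one_div_cancel hp0.ne', ENNReal.rpow_one]
  rw [h3]
  gcongr
  rw [at_eq' _ (hζ1 l)]
  exact bound_cmp hPt bs hb _ (hζ1 l) f

end Pool.Agent.Q299.FC
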