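import Pool.Agent.Q299.FC.A

/-! Functions analytic in a disc of radius greater than one. -/

set_option autoImplicit false
open MeasureTheory Filter Topology Set Real
open scoped FourierTransform SchwartzMap ENNReal

namespace Pool.Agent.Q299.FC

open Pool.Agent.TH55.PowA

variable {q : ℂ → ℂ} {R : ℝ}

/-- the point of the circle -/
noncomputable def wc (R : ℝ) (θ : ℝ) : ℂ := circleMap 0 R θ

lemma wc_norm (hR : 1 < R) (θ : ℝ) : ‖wc R θ‖ = R := by
  unfold wc
  rw [norm_circleMap_zero, abs_of_pos (by linarith)]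

lemma wc_ne (hR : 1 < R) (θ : ℝ) : wc R θ ≠ 0 := by
  intro h
  have := wc_norm hR θ
  rw [h, norm_zero] at this
  linarith

lemma wc_cont (R : ℝ) : Continuous (wc R) := continuous_circleMap 0 R

lemma wc_conj (hR : 1 < R) (θ : ℝ) : (starRingEnd ℂ) (wc R θ) = (R : ℂ) ^ 2 / wc R θ := by
  rw [eq_div_iff (wc_ne hR θ), mul_comm, c_conj, wc_norm hR]
  push_cast
  ring

lemma ci_norm (hR : 1 < R) (θ : ℝ) : ‖-(wc R θ)⁻¹‖ < 1 := by
  rw [norm_neg, norm_inv, wc_norm hR]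
  exact inv_lt_one_of_one_lt₀ hR

/-- the conjugated symbol in terms of the point of the circle -/
lemma at_wc (hR : 1 < R) (θ : ℝ) (ξ : ℂ) (hξ : ξ ≠ 0) :
    at' (-(wc R θ)⁻¹) ξ = wc R θ * (bs ξ - wc R θ / (R : ℂ) ^ 2) / (wc R θ - bs ξ) := by
  have hw := wc_ne hR θ
  have hb := bs_norm ξ hξ
  have hR0 : (R : ℂ) ≠ 0 := by
    have : R ≠ 0 := by linarith
    exact_mod_cast this
  have hd : wc R θ - bs ξ ≠ 0 := by
    intro h
    have h1 : wc R θ = bs ξ := by linear_combination h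
    have h2 := wc_norm hR θ
    rw [h1, hb] at h2
    linarith
  have hd' : (1 : ℂ) + -(wc R θ)⁻¹ * bs ξ ≠ 0 := one_add_ne _ (ci_norm hR θ) _ hb
  rw [at_eq _ (ci_norm hR θ), bs_Ae _ _ ξ hξ, map_neg, map_inv₀, wc_conj hR]
  have e : (1 : ℂ) + -(wc R θ)⁻¹ * bs ξ = (wc R θ - bs ξ) / wc R θ := by
    field_simp
    ring
  rw [e]
  field_simp
  ring

/-- the weight -/
noncomputable def gq (q : ℂ → ℂ) (R : ℝ) (θ : ℝ) : ℂ :=
  ((2 * π)⁻¹ : ℝ) * ((1 - ((R : ℂ) ^ 2)⁻¹)⁻¹ * ((q (wc R θ) - q 0) / wc R θ))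

lemma qw_cont (hR : 1 < R) (hq : ContinuousOn q (Metric.closedBall 0 R)) :
    Continuous fun θ => q (wc R θ) := by
  refine hq.comp_continuous (wc_cont R) fun θ => ?_
  rw [mem_closedBall_zero_iff, wc_norm hR]

lemma gq_cont (hR : 1 < R) (hq : ContinuousOn q (Metric.closedBall 0 R)) :
    Continuous (gq q R) := by
  unfold gq
  refine continuous_const.mul (continuous_const.mul ?_)
  exact ((qw_cont hR hq).sub continuous_const).div (wc_cont R) (wc_ne hR)

/-- the measure on the circle -/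
noncomputable def nc : Measure ℝ := volume.restrict (Ioc 0 (2 * π))

instance : IsFiniteMeasure nc := by
  unfold nc
  infer_instance

lemma gq_int (hR : 1 < R) (hq : ContinuousOn q (Metric.closedBall 0 R)) :
    Integrable (gq q R) nc := by
  have h : IntegrableOn (gq q R) (Icc 0 (2 * π)) volume :=
    (gq_cont hR hq).continuousOn.integrableOn_compact isCompact_Icc
  exact h.mono_set Ioc_subset_Icc_self

lemma R_fac (hR : 1 < R) : (1 : ℂ) - ((R : ℂ) ^ 2)⁻¹ ≠ 0 := by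
  have h : (1 : ℝ) - (R ^ 2)⁻¹ ≠ 0 := by
    have : (R ^ 2)⁻¹ < 1 := inv_lt_one_of_one_lt₀ (by nlinarith)
    linarith
  exact_mod_cast h

/-- the symbol is `q(τ) - q(0)` -/
lemma sy_eq (hR : 1 < R) (hq : DiffContOnCl ℂ q (Metric.ball 0 R)) (ξ : ℂ) (hξ : ξ ≠ 0) :
    sy nc (fun θ => -(wc R θ)⁻¹) (gq q R) ξ = q (bs ξ) - q 0 := by
  have hR0 : 0 < R := by linarith
  have hRc : (R : ℂ) ≠ 0 := by exact_mod_cast hR0.ne'
  have hb := bs_norm ξ hξ
  set τ := bs ξ with hτ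
  have hτ0 : τ ≠ 0 := by
    intro h
    rw [h, norm_zero] at hb
    exact zero_ne_one hb
  have hτb : τ ∈ Metric.ball (0 : ℂ) |R| := by
    rw [abs_of_pos hR0, mem_ball_zero_iff, hb]; exact hR
  -- the analytic function
  set h : ℂ → ℂ := dslope q 0 with hh
  have hd : DiffContOnCl ℂ h (Metric.ball 0 R) := by
    have hnb : Metric.ball (0 : ℂ) R ∈ 𝓝 (0 : ℂ) := Metric.ball_mem_nhds _ hR0
    refine ⟨(Complex.differentiableOn_dslope hnb).2 hq.1, ?_⟩
    have hcl : closure (Metric.ball (0 : ℂ) R) ∈ 𝓝 (0 : ℂ) := Filter.mem_of_superset hnb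
      subset_closure
    exact (continuousOn_dslope hcl).2 ⟨hq.2, hq.1.differentiableAt hnb⟩
  set F : ℂ → ℂ := fun w => h w * (τ - w / (R : ℂ) ^ 2) with hF
  have hFd : DiffContOnCl ℂ F (Metric.ball 0 |R|) := by
    rw [abs_of_pos hR0]
    have h2 : DiffContOnCl ℂ (fun w : ℂ => τ - w / (R : ℂ) ^ 2) (Metric.ball 0 R) := by
      apply Differentiable.diffContOnCl
      fun_prop
    exact hd.smul h2
  have key := DiffContOnCl.circleAverage_smul_div hFd hτb
  have hhw : ∀ w : ℂ, w ≠ 0 → h w = (q w - q 0) / w := by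
    intro w hw
    rw [hh, dslope_of_ne _ hw, slope_def_field, sub_zero]
  have hFτ : F τ = (q τ - q 0) * (1 - ((R : ℂ) ^ 2)⁻¹) := by
    rw [hF]
    simp only
    rw [hhw τ hτ0]
    field_simp
  rw [hFτ] at key
  have e1 : sy nc (fun θ => -(wc R θ)⁻¹) (gq q R) ξ
      = (1 - ((R : ℂ) ^ 2)⁻¹)⁻¹ * circleAverage (fun z => ((z - 0) / (z - τ)) • F z) 0 R := by
    unfold sy nc
    rw [circleAverage_def, intervalIntegral.integral_of_le (by positivity), ← integral_smul,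
      ← integral_const_mul]
    refine integral_congr_ae (Eventually.of_forall fun θ => ?_)
    simp only
    rw [at_wc hR θ ξ hξ]
    have hw := wc_ne hR θ
    have hd : wc R θ - τ ≠ 0 := by
      intro h
      have h1 : wc R θ = τ := by linear_combination h
      have h2 := wc_norm hR θ
      rw [h1, hb] at h2
      linarith
    show gq q R θ * (wc R θ * (bs ξ - wc R θ / (R : ℂ) ^ 2) / (wc R θ - bs ξ))
      = (1 - ((R : ℂ) ^ 2)⁻¹)⁻¹ * ((2 * π)⁻¹ • (((wc R θ - 0) / (wc R θ - τ)) • F (wc R θ)))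
    rw [← hτ, hF]
    simp only [smul_eq_mul, Complex.real_smul, sub_zero]
    rw [hhw _ hw]
    unfold gq
    field_simp
  rw [e1, key, mul_comm (q τ - q 0), ← mul_assoc, inv_mul_cancel₀ (R_fac hR), one_mul]

/-- the total weight -/
lemma gq_mass (hR : 1 < R) (hq : ContinuousOn q (Metric.closedBall 0 R)) :
    ∫⁻ θ, ‖gq q R θ‖ₑ ∂nc
      = ENNReal.ofReal (R / (R ^ 2 - 1) * circleAverage (fun w => ‖q w - q 0‖) 0 R) := by
  have hR0 : 0 < R := by linarith
  have hRR : 0 < R ^ 2 - 1 := by nlinarith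
  rw [← ofReal_integral_norm_eq_lintegral_enorm (gq_int hR hq)]
  congr 1
  unfold nc
  rw [circleAverage_def, intervalIntegral.integral_of_le (by positivity), smul_eq_mul,
    ← mul_assoc, ← integral_const_mul]
  refine integral_congr_ae (Eventually.of_forall fun θ => ?_)
  simp only
  have hfac : ‖(1 - ((R : ℂ) ^ 2)⁻¹)⁻¹‖ = R ^ 2 / (R ^ 2 - 1) := by
    have e : (1 - ((R : ℂ) ^ 2)⁻¹)⁻¹ = ((R ^ 2 / (R ^ 2 - 1) : ℝ) : ℂ) := by
      have h1 : (R : ℂ) ≠ 0 := by exact_mod_cast hR0.ne'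
      have h2 : (R : ℂ) ^ 2 - 1 ≠ 0 := by exact_mod_cast hRR.ne'
      push_cast
      rw [inv_eq_one_div, div_eq_div_iff (R_fac hR) h2]
      field_simp
    rw [e, Complex.norm_real, Real.norm_of_nonneg (by positivity)]
  unfold gq
  rw [norm_mul, norm_mul, norm_div, wc_norm hR, hfac, Complex.norm_real,
    Real.norm_of_nonneg (by positivity)]
  show (2 * π)⁻¹ * (R ^ 2 / (R ^ 2 - 1) * (‖q (wc R θ) - q 0‖ / R))
    = R / (R ^ 2 - 1) * (2 * π)⁻¹ * ‖q (wc R θ) - q 0‖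
  field_simp

/-- equality of the operators when the symbols agree away from the origin -/
lemma T_congr {m m' : ℂ → ℂ} (h : ∀ ξ, ξ ≠ 0 → m ξ = m' ξ) (f : 𝓢(ℂ, ℂ)) : T m f = T m' f := by
  funext z
  unfold T
  refine integral_congr_ae ?_
  filter_upwards [ae_ne] with ξ hξ
  simp only [h ξ hξ]

/-- **functions analytic in a larger disc** -/
theorem disc_bound {p : ℝ} (hp : 1 ≤ p) {K : ℝ≥0∞}
    (hb : ∀ f : 𝓢(ℂ, ℂ), eLpNorm (T bs f) (ENNReal.ofReal p) volume
      ≤ K * eLpNorm f (ENNReal.ofReal p) volume)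
    (hR : 1 < R) (hq : DiffContOnCl ℂ q (Metric.ball 0 R)) (f : 𝓢(ℂ, ℂ)) :
    eLpNorm (T (fun ξ => q (bs ξ) - q 0) f) (ENNReal.ofReal p) volume
      ≤ ENNReal.ofReal (R / (R ^ 2 - 1) * circleAverage (fun w => ‖q w - q 0‖) 0 R) *
        (K * eLpNorm f (ENNReal.ofReal p) volume) := by
  have hR0 : 0 < R := by linarith
  have hc : ContinuousOn q (Metric.closedBall 0 R) := by
    have := hq.2
    rwa [closure_ball _ hR0.ne'] at this
  rw [← gq_mass hR hc, ← T_congr (sy_eq hR hq) f]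
  refine sy_bound hp hb ?_ (ci_norm hR) (gq_int hR hc) (gq_cont hR hc).measurable f
  exact (wc_cont R).measurable.inv.neg

end Pool.Agent.Q299.FC
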