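import Mathlib

/-! Circle averages of the modulus of a polynomial. -/

set_option autoImplicit false
open MeasureTheory Filter Topology Set Real
open scoped ENNReal

namespace Pool.Agent.Q299.FC

/-- the phase -/
noncomputable def ph (c : ℂ) : ℂ := (starRingEnd ℂ) c / ‖c‖

lemma ph_mul (c : ℂ) : ph c * c = ‖c‖ := by
  unfold ph
  by_cases h : c = 0
  · simp [h]
  have h1 : ((‖c‖ : ℝ) : ℂ) ≠ 0 := by
    have := norm_ne_zero_iff.2 h
    exact_mod_cast this
  rw [div_mul_eq_mul_div, div_eq_iff h1, mul_comm, Complex.mul_conj, Complex.normSq_eq_norm_sq]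
  push_cast
  ring

lemma ph_norm (c : ℂ) : ‖ph c‖ ≤ 1 := by
  unfold ph
  rw [norm_div, RCLike.norm_conj, Complex.norm_real, norm_norm]
  exact div_self_le_one _

lemma ph_meas : Measurable ph := by
  unfold ph
  exact (Complex.continuous_conj.measurable).div
    (Complex.continuous_ofReal.measurable.comp measurable_norm)

variable (P : Polynomial ℂ) (m : ℕ)

/-- the homogenised polynomial on the circle -/
noncomputable def Sg (z : ℂ) (θ : ℝ) : ℂ :=
  ∑ k ∈ Finset.range (m + 1), P.coeff k * (circleMap 0 1 θ) ^ k * z ^ (m - k)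

variable {P m}

lemma Sg_scale (hP : P.natDegree ≤ m) {z : ℂ} (hz : z ≠ 0) (θ : ℝ) :
    Sg P m z θ = z ^ m * P.eval (circleMap 0 1 θ / z) := by
  unfold Sg
  rw [Polynomial.eval_eq_sum_range' (n := m + 1) (by omega), Finset.mul_sum]
  refine Finset.sum_congr rfl fun k hk => ?_
  have hk' : k ≤ m := by
    have := Finset.mem_range.1 hk
    omega
  have e : z ^ m = z ^ (m - k) * z ^ k := by
    rw [← pow_add]
    congr 1
    omega
  rw [e, div_pow]
  field_simp

lemma norm_eval_cont : Continuous fun w : ℂ => ‖P.eval w‖ := P.continuous.norm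

/-- **growth of the mean modulus of a polynomial** -/
theorem mean_growth (hP : P.natDegree ≤ m) {R : ℝ} (hR : 1 ≤ R) :
    circleAverage (fun w => ‖P.eval w‖) 0 R ≤ R ^ m * circleAverage (fun w => ‖P.eval w‖) 0 1 := by
  have hR0 : 0 < R := by linarith
  set M := circleAverage (fun w => ‖P.eval w‖) 0 1 with hM
  -- the phases
  set χ : ℝ → ℂ := fun θ => ph (P.eval (circleMap 0 R θ)) with hχ
  have hχm : Measurable χ := ph_meas.comp (P.continuous.measurable.comp
    (continuous_circleMap 0 R).measurable)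
  have hχn : ∀ θ, ‖χ θ‖ ≤ 1 := fun θ => ph_norm _
  have hint : ∀ g : ℝ → ℂ, Continuous g → IntervalIntegrable (fun θ => χ θ * g θ) volume 0 (2 * π) := by
    intro g hg
    refine (hg.norm.intervalIntegrable 0 (2 * π)).mono_fun
      (hχm.aestronglyMeasurable.mul hg.aestronglyMeasurable) (Eventually.of_forall fun θ => ?_)
    simp only [norm_mul, norm_norm]
    calc ‖χ θ‖ * ‖g θ‖ ≤ 1 * ‖g θ‖ := by gcongr; exact hχn θ
      _ = _ := one_mul _
  set F : ℂ → ℂ := fun z => (2 * π : ℝ)⁻¹ • ∫ θ in (0 : ℝ)..2 * π, χ θ * Sg P m z θ with hF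
  have hSc : ∀ z, Continuous (Sg P m z) := by
    intro z
    unfold Sg
    have := continuous_circleMap 0 1
    fun_prop
  have hFe : ∀ z, F z = ∑ k ∈ Finset.range (m + 1), ((2 * π : ℝ)⁻¹ •
      ∫ θ in (0 : ℝ)..2 * π, χ θ * (P.coeff k * (circleMap 0 1 θ) ^ k)) * z ^ (m - k) := by
    intro z
    rw [hF]
    simp only
    have e : ∀ θ, χ θ * Sg P m z θ = ∑ k ∈ Finset.range (m + 1),
        (χ θ * (P.coeff k * (circleMap 0 1 θ) ^ k)) * z ^ (m - k) := by
      intro θ
      unfold Sg
      rw [Finset.mul_sum]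
      refine Finset.sum_congr rfl fun k _ => ?_
      ring
    simp only [e]
    rw [intervalIntegral.integral_finsetSum]
    · rw [Finset.smul_sum]
      refine Finset.sum_congr rfl fun k _ => ?_
      rw [intervalIntegral.integral_mul_const, smul_mul_assoc]
    · intro k _
      refine (hint _ ?_).mul_const _
      have := continuous_circleMap 0 1
      fun_prop
  have hFd : Differentiable ℂ F := by
    have : F = fun z => ∑ k ∈ Finset.range (m + 1), ((2 * π : ℝ)⁻¹ •
      ∫ θ in (0 : ℝ)..2 * π, χ θ * (P.coeff k * (circleMap 0 1 θ) ^ k)) * z ^ (m - k) := funext hFe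
    rw [this]
    fun_prop
  -- on the unit circle
  have hb : ∀ z ∈ frontier (Metric.ball (0 : ℂ) 1), ‖F z‖ ≤ M := by
    intro z hz
    rw [frontier_ball _ one_ne_zero, mem_sphere_zero_iff_norm] at hz
    have hz0 : z ≠ 0 := by
      intro h
      rw [h, norm_zero] at hz
      exact zero_ne_one hz
    rw [hF]
    simp only
    rw [norm_smul, norm_inv, Real.norm_of_nonneg (by positivity)]
    have h1 : ‖∫ θ in (0 : ℝ)..2 * π, χ θ * Sg P m z θ‖
        ≤ ∫ θ in (0 : ℝ)..2 * π, ‖Sg P m z θ‖ := by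
      refine intervalIntegral.norm_integral_le_of_norm_le (by positivity)
        (Eventually.of_forall fun θ _ => ?_) ((hSc z).norm.intervalIntegrable _ _)
      rw [norm_mul]
      calc ‖χ θ‖ * ‖Sg P m z θ‖ ≤ 1 * ‖Sg P m z θ‖ := by gcongr; exact hχn θ
        _ = _ := one_mul _
    have h2 : ∀ θ, ‖Sg P m z θ‖ = ‖P.eval (circleMap 0 1 (θ + -z.arg))‖ := by
      intro θ
      rw [Sg_scale hP hz0, norm_mul, norm_pow, hz, one_pow, one_mul]
      congr 2
      have hzz : z = Complex.exp (z.arg * Complex.I) := by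
        conv_lhs => rw [← Complex.norm_mul_exp_arg_mul_I z]
        rw [hz]
        simp
      rw [circleMap_zero, circleMap_zero, div_eq_iff hz0]
      conv_rhs => rw [hzz]
      rw [mul_assoc, ← Complex.exp_add]
      congr 2
      push_cast
      rw [← hzz]
      ring
    calc (2 * π)⁻¹ * ‖∫ θ in (0 : ℝ)..2 * π, χ θ * Sg P m z θ‖
        ≤ (2 * π)⁻¹ * ∫ θ in (0 : ℝ)..2 * π, ‖Sg P m z θ‖ := by gcongr
      _ = M := by
          rw [hM, circleAverage_eq_integral_add (-z.arg), smul_eq_mul]
          simp only [h2]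
  have hmax := Complex.norm_le_of_forall_mem_frontier_norm_le Metric.isBounded_ball
    (hFd.diffContOnCl (s := Metric.ball (0 : ℂ) 1)) hb
    (z := ((R⁻¹ : ℝ) : ℂ)) (by
      rw [closure_ball _ one_ne_zero, mem_closedBall_zero_iff, Complex.norm_real,
        Real.norm_of_nonneg (by positivity)]
      exact inv_le_one_of_one_le₀ hR)
  have hval : F ((R⁻¹ : ℝ) : ℂ) = (((R⁻¹) ^ m * circleAverage (fun w => ‖P.eval w‖) 0 R : ℝ) : ℂ) := by
    rw [hF]
    simp only
    have hRc : (((R⁻¹ : ℝ)) : ℂ) ≠ 0 := by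
      have : R⁻¹ ≠ 0 := by positivity
      exact_mod_cast this
    have h1 : ∀ θ, χ θ * Sg P m ((R⁻¹ : ℝ) : ℂ) θ
        = (((R⁻¹) ^ m * ‖P.eval (circleMap 0 R θ)‖ : ℝ) : ℂ) := by
      intro θ
      rw [Sg_scale hP hRc]
      have h2 : circleMap 0 1 θ / ((R⁻¹ : ℝ) : ℂ) = circleMap 0 R θ := by
        rw [circleMap_zero, circleMap_zero]
        push_cast
        field_simp
      rw [h2]
      have := ph_mul (P.eval (circleMap 0 R θ))
      rw [hχ]
      simp only
      push_cast at this ⊢
      rw [← this]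
      ring
    simp only [h1]
    rw [intervalIntegral.integral_ofReal, circleAverage_def, intervalIntegral.integral_const_mul,
      Complex.real_smul]
    push_cast
    rw [smul_eq_mul]
    push_cast
    ring
  rw [hval, Complex.norm_real, Real.norm_of_nonneg (mul_nonneg (by positivity)
    (circleAverage_nonneg_of_nonneg fun w _ => norm_nonneg _))] at hmax
  calc circleAverage (fun w => ‖P.eval w‖) 0 R
      = R ^ m * ((R⁻¹) ^ m * circleAverage (fun w => ‖P.eval w‖) 0 R) := by
        rw [← mul_assoc, ← mul_pow, mul_inv_cancel₀ hR0.ne', one_pow, one_mul]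
    _ ≤ R ^ m * M := by gcongr

end Pool.Agent.Q299.FC
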