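import Pool.Agent.Q299.FC.B

/-! The functional calculus on the minimal Moebius invariant space. -/

set_option autoImplicit false
open MeasureTheory Filter Topology Set Real
open scoped FourierTransform SchwartzMap ENNReal

namespace Pool.Agent.Q299.FC

open Pool.Agent.TH55.PowA

/-- `z φ(z)` -/
noncomputable def Ph (φ : ℂ → ℂ) (z : ℂ) : ℂ := z * φ z

/-- `(z φ(z))''` -/
noncomputable def P2 (φ : ℂ → ℂ) : ℂ → ℂ := deriv (deriv (Ph φ))

lemma P2_meas (φ : ℂ → ℂ) : Measurable (P2 φ) := measurable_deriv _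

variable {φ : ℂ → ℂ}

lemma Ph_diff (hφ : DiffContOnCl ℂ φ (Metric.ball 0 1)) : DifferentiableOn ℂ (Ph φ) (Metric.ball 0 1) := by
  unfold Ph
  exact differentiableOn_id.mul hφ.1

lemma P1_diff (hφ : DiffContOnCl ℂ φ (Metric.ball 0 1)) :
    DifferentiableOn ℂ (deriv (Ph φ)) (Metric.ball 0 1) :=
  (Ph_diff hφ).deriv Metric.isOpen_ball

lemma P2_diff (hφ : DiffContOnCl ℂ φ (Metric.ball 0 1)) :
    DifferentiableOn ℂ (P2 φ) (Metric.ball 0 1) :=
  (P1_diff hφ).deriv Metric.isOpen_ball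

/-- the measure on the parameter rectangle -/
noncomputable def nd : Measure (ℝ × ℝ) :=
  (volume.restrict (Ioo (0 : ℝ) 1)).prod (volume.restrict (Ioo (-π) π))

instance : IsFiniteMeasure nd := by
  unfold nd
  infer_instance

/-- the parameter of the conjugated operator -/
noncomputable def zd (x : ℝ × ℝ) : ℂ :=
  if 0 < x.1 ∧ x.1 < 1 then -(starRingEnd ℂ) (circleMap 0 x.1 x.2) else 0

lemma cm_meas : Measurable fun x : ℝ × ℝ => circleMap 0 x.1 x.2 := by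
  unfold circleMap
  fun_prop

lemma zd_meas : Measurable zd := by
  unfold zd
  refine Measurable.ite ?_ ?_ measurable_const
  · exact (measurableSet_lt measurable_const measurable_fst).inter
      (measurableSet_lt measurable_fst measurable_const)
  · exact (Complex.continuous_conj.measurable.comp cm_meas).neg

lemma zd_norm (x : ℝ × ℝ) : ‖zd x‖ < 1 := by
  unfold zd
  split_ifs with h
  · rw [norm_neg, RCLike.norm_conj, norm_circleMap_zero, abs_of_pos h.1]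
    exact h.2
  · simp

/-- the weight -/
noncomputable def gd (φ : ℂ → ℂ) (x : ℝ × ℝ) : ℂ :=
  ((x.1 / π : ℝ) : ℂ) * P2 φ (circleMap 0 x.1 x.2)

lemma gd_meas (φ : ℂ → ℂ) : Measurable (gd φ) := by
  unfold gd
  refine Measurable.mul ?_ ((P2_meas φ).comp cm_meas)
  fun_prop

lemma polar_symm (p : ℝ × ℝ) : Complex.polarCoord.symm p = circleMap 0 p.1 p.2 := by
  rw [Complex.polarCoord_symm_apply, circleMap_zero, Complex.exp_mul_I, Complex.ofReal_cos,
    Complex.ofReal_sin]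

/-- the total mass -/
lemma gd_mass (φ : ℂ → ℂ) :
    ∫⁻ x, ‖gd φ x‖ₑ ∂nd = ENNReal.ofReal π⁻¹ * ∫⁻ c in Metric.ball (0 : ℂ) 1, ‖P2 φ c‖ₑ := by
  have h1 := Complex.lintegral_comp_polarCoord_symm
    ((Metric.ball (0 : ℂ) 1).indicator fun c => ‖P2 φ c‖ₑ)
  rw [lintegral_indicator Metric.isOpen_ball.measurableSet] at h1
  rw [← h1, nd, Measure.prod_restrict, ← Measure.volume_eq_prod, ← lintegral_const_mul' _ _
    ENNReal.ofReal_ne_top, polarCoord_target]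
  have hs : Ioo (0 : ℝ) 1 ×ˢ Ioo (-π) π ⊆ Ioi (0 : ℝ) ×ˢ Ioo (-π) π := by
    rintro ⟨a, b⟩ ⟨ha, hb⟩
    exact ⟨ha.1, hb⟩
  have hm : MeasurableSet (Ioo (0 : ℝ) 1 ×ˢ Ioo (-π) π) := measurableSet_Ioo.prod measurableSet_Ioo
  have hM : MeasurableSet (Ioi (0 : ℝ) ×ˢ Ioo (-π) π) := measurableSet_Ioi.prod measurableSet_Ioo
  rw [← lintegral_indicator hm, ← lintegral_indicator hM]
  refine lintegral_congr fun x => ?_
  by_cases hx : x ∈ Ioo (0 : ℝ) 1 ×ˢ Ioo (-π) π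
  · rw [indicator_of_mem hx, indicator_of_mem (hs hx), polar_symm, indicator_of_mem]
    · have hx0 : 0 < x.1 := hx.1.1
      rw [gd, enorm_mul, smul_eq_mul, ← mul_assoc, ← ENNReal.ofReal_mul (by positivity)]
      congr 1
      rw [← ofReal_norm, Complex.norm_real, Real.norm_of_nonneg (by positivity)]
      congr 1
      field_simp
    · rw [mem_ball_zero_iff, norm_circleMap_zero, abs_of_pos hx.1.1]
      exact hx.1.2
  · rw [indicator_of_notMem hx]
    by_cases hx' : x ∈ Ioi (0 : ℝ) ×ˢ Ioo (-π) π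
    · rw [indicator_of_mem hx', indicator_of_notMem]
      · simp
      · rw [polar_symm, mem_ball_zero_iff, norm_circleMap_zero, abs_of_pos hx'.1]
        intro h
        exact hx ⟨⟨hx'.1, h⟩, hx'.2⟩
    · rw [indicator_of_notMem hx']

lemma gd_int (h : ∫⁻ c in Metric.ball (0 : ℂ) 1, ‖P2 φ c‖ₑ ≠ ∞) : Integrable (gd φ) nd := by
  refine ⟨(gd_meas φ).aestronglyMeasurable, ?_⟩
  rw [hasFiniteIntegral_iff_enorm, gd_mass]
  exact ENNReal.mul_lt_top ENNReal.ofReal_lt_top (lt_top_iff_ne_top.2 h)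

/-- the inner integral -/
lemma inner_int (hφ : DiffContOnCl ℂ φ (Metric.ball 0 1)) {ρ : ℝ} (h0 : 0 < ρ) (h1 : ρ < 1)
    (ξ : ℂ) (hξ : ξ ≠ 0) :
    ∫ θ in Ioo (-π) π, gd φ (ρ, θ) * at' (zd (ρ, θ)) ξ
      = 2 * ρ * (1 - (ρ : ℂ) ^ 2) * bs ξ * P2 φ ((ρ : ℂ) ^ 2 * bs ξ) := by
  have hb := bs_norm ξ hξ
  set τ := bs ξ with hτ
  set R : ℝ := ρ⁻¹ with hRd
  have hR : 1 < R := (one_lt_inv₀ h0).2 h1
  have hR0 : 0 < R := by linarith
  have hRc : (R : ℂ) ≠ 0 := by exact_mod_cast hR0.ne'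
  have hρc : (ρ : ℂ) ≠ 0 := by exact_mod_cast h0.ne'
  have hτb : τ ∈ Metric.ball (0 : ℂ) |R| := by
    rw [abs_of_pos hR0, mem_ball_zero_iff, hb]; exact hR
  set F : ℂ → ℂ := fun w => P2 φ (w / (R : ℂ) ^ 2) * (τ - w / (R : ℂ) ^ 2) with hF
  have hFd : DiffContOnCl ℂ F (Metric.ball 0 |R|) := by
    rw [abs_of_pos hR0]
    apply DifferentiableOn.diffContOnCl
    rw [closure_ball _ hR0.ne']
    refine DifferentiableOn.mul ?_ (by fun_prop)
    refine (P2_diff hφ).comp (by fun_prop) ?_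
    intro w hw
    rw [mem_closedBall_zero_iff] at hw
    rw [mem_ball_zero_iff, norm_div, norm_pow, Complex.norm_real, Real.norm_of_nonneg hR0.le,
      div_lt_one (by positivity)]
    nlinarith
  have key := DiffContOnCl.circleAverage_smul_div hFd hτb
  have e1 : ∀ θ : ℝ, gd φ (ρ, θ) * at' (zd (ρ, θ)) ξ
      = ((ρ / π : ℝ) : ℂ) * (((circleMap 0 R θ - 0) / (circleMap 0 R θ - τ)) • F (circleMap 0 R θ)) := by
    intro θ
    have hv : circleMap 0 ρ θ = circleMap 0 R θ / (R : ℂ) ^ 2 := by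
      rw [circleMap_zero, circleMap_zero, hRd]
      push_cast
      field_simp
    have hz : zd (ρ, θ) = -(wc R θ)⁻¹ := by
      unfold zd
      rw [if_pos ⟨h0, h1⟩]
      simp only
      rw [hv]
      have := wc_conj hR θ
      unfold wc at this ⊢
      rw [map_div₀, this, map_pow, Complex.conj_ofReal]
      have hw := wc_ne hR θ
      unfold wc at hw
      field_simp
    rw [hz, at_wc hR θ ξ hξ, gd]
    simp only
    rw [hv, hF]
    simp only [smul_eq_mul, sub_zero]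
    unfold wc
    rw [← hτ]
    ring
  have e2 : ∫ θ in Ioo (-π) π, gd φ (ρ, θ) * at' (zd (ρ, θ)) ξ
      = 2 * ρ * circleAverage (fun z => ((z - 0) / (z - τ)) • F z) 0 R := by
    rw [← integral_Ioc_eq_integral_Ioo, ← intervalIntegral.integral_of_le (by linarith [Real.pi_pos]),
      circleAverage_def]
    simp only [e1]
    rw [intervalIntegral.integral_const_mul]
    have hper : Function.Periodic (fun θ : ℝ => ((circleMap 0 R θ - 0) / (circleMap 0 R θ - τ)) •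
        F (circleMap 0 R θ)) (2 * π) := by
      intro θ
      simp only [periodic_circleMap 0 R θ]
    have h3 := hper.intervalIntegral_add_eq (-π) 0
    rw [show -π + 2 * π = π by ring, zero_add] at h3
    rw [h3, Complex.real_smul]
    push_cast
    have : (π : ℂ) ≠ 0 := by exact_mod_cast Real.pi_ne_zero
    field_simp
  rw [e2, key, hF]
  simp only
  have e3 : τ / (R : ℂ) ^ 2 = (ρ : ℂ) ^ 2 * τ := by
    rw [hRd]
    push_cast
    field_simp
  rw [e3]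
  ring

/-- the radial primitive -/
noncomputable def kr (φ : ℂ → ℂ) (τ s : ℂ) : ℂ :=
  (1 - s ^ 2) * deriv (Ph φ) (s ^ 2 * τ) + Ph φ (s ^ 2 * τ) / τ

lemma kr_deriv (hφ : DiffContOnCl ℂ φ (Metric.ball 0 1)) {τ : ℂ} (hτ : ‖τ‖ = 1) {s : ℂ}
    (hs : ‖s‖ < 1) :
    HasDerivAt (kr φ τ) (2 * s * (1 - s ^ 2) * τ * P2 φ (s ^ 2 * τ)) s := by
  have hτ0 : τ ≠ 0 := by
    intro h
    rw [h, norm_zero] at hτ
    exact zero_ne_one hτ
  have hm : s ^ 2 * τ ∈ Metric.ball (0 : ℂ) 1 := by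
    rw [mem_ball_zero_iff, norm_mul, norm_pow, hτ, mul_one]
    exact pow_lt_one₀ (norm_nonneg _) hs two_ne_zero
  have hn : Metric.ball (0 : ℂ) 1 ∈ 𝓝 (s ^ 2 * τ) := Metric.isOpen_ball.mem_nhds hm
  have hi : HasDerivAt (fun s : ℂ => s ^ 2 * τ) (2 * s * τ) s := by
    have := ((hasDerivAt_pow 2 s).mul_const τ)
    simpa using this
  have h1 : HasDerivAt (Ph φ) (deriv (Ph φ) (s ^ 2 * τ)) (s ^ 2 * τ) :=
    ((Ph_diff hφ).differentiableAt hn).hasDerivAt
  have h2 : HasDerivAt (deriv (Ph φ)) (P2 φ (s ^ 2 * τ)) (s ^ 2 * τ) :=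
    ((P1_diff hφ).differentiableAt hn).hasDerivAt
  have h3 := h1.comp s hi
  have h4 := h2.comp s hi
  have h5 : HasDerivAt (fun s : ℂ => 1 - s ^ 2) (-(2 * s)) s := by
    have := (hasDerivAt_pow 2 s).const_sub 1
    simpa using this
  have h6 := (h5.mul h4).add (h3.div_const τ)
  refine h6.congr_deriv ?_
  simp only [Function.comp_def]
  field_simp
  ring

lemma kr_zero (hφ : DiffContOnCl ℂ φ (Metric.ball 0 1)) (τ : ℂ) : kr φ τ 0 = φ 0 := by
  have h0 : Metric.ball (0 : ℂ) 1 ∈ 𝓝 (0 : ℂ) := Metric.ball_mem_nhds _ one_pos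
  have h1 : HasDerivAt (Ph φ) (1 * φ 0 + 0 * deriv φ 0) 0 :=
    (hasDerivAt_id (0 : ℂ)).mul (hφ.1.differentiableAt h0).hasDerivAt
  have h2 : deriv (Ph φ) 0 = φ 0 := by
    rw [h1.deriv]; ring
  unfold kr
  rw [zero_pow two_ne_zero, zero_mul, h2]
  unfold Ph
  simp

/-- the boundary limit -/
lemma kr_one (hφ : DiffContOnCl ℂ φ (Metric.ball 0 1)) {τ : ℂ} (hτ : ‖τ‖ = 1) :
    Tendsto (fun s : ℝ => kr φ τ s) (𝓝[<] 1) (𝓝 (φ τ)) := by
  have hτ0 : τ ≠ 0 := by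
    intro h
    rw [h, norm_zero] at hτ
    exact zero_ne_one hτ
  have hc : ContinuousOn (Ph φ) (Metric.closedBall 0 1) := by
    have := hφ.2
    rw [closure_ball _ one_ne_zero] at this
    exact continuousOn_id.mul this
  have hτm : τ ∈ Metric.closedBall (0 : ℂ) 1 := by
    rw [mem_closedBall_zero_iff, hτ]
  have hct := hc τ hτm
  have hseg : ∀ᶠ s : ℝ in 𝓝[<] 1, 0 < s ∧ s < 1 := by
    filter_upwards [Ioo_mem_nhdsLT (zero_lt_one (α := ℝ))] with s hs using hs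
  have hlim : Tendsto (fun s : ℝ => (s : ℂ) ^ 2 * τ) (𝓝[<] 1) (𝓝 τ) := by
    have hcc : Continuous fun s : ℝ => (s : ℂ) ^ 2 * τ := by fun_prop
    have := (hcc.tendsto 1).mono_left (nhdsWithin_le_nhds (s := Iio 1))
    simpa using this
  have hlim' : Tendsto (fun s : ℝ => (s : ℂ) ^ 2 * τ) (𝓝[<] 1)
      (𝓝[Metric.closedBall (0 : ℂ) 1] τ) := by
    rw [tendsto_nhdsWithin_iff]
    refine ⟨hlim, ?_⟩
    filter_upwards [hseg] with s hs
    rw [mem_closedBall_zero_iff, norm_mul, norm_pow, hτ, mul_one, Complex.norm_real,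
      Real.norm_of_nonneg hs.1.le]
    nlinarith [hs.1, hs.2]
  have h1 : Tendsto (fun s : ℝ => Ph φ ((s : ℂ) ^ 2 * τ) / τ) (𝓝[<] 1) (𝓝 (φ τ)) := by
    have h := (hct.tendsto.comp hlim').div_const τ
    have e : Ph φ τ / τ = φ τ := by
      unfold Ph
      field_simp
    rw [e] at h
    exact h
  have h2 : Tendsto (fun s : ℝ => (1 - (s : ℂ) ^ 2) * deriv (Ph φ) ((s : ℂ) ^ 2 * τ)) (𝓝[<] 1)
      (𝓝 0) := by
    rw [Metric.tendsto_nhds]
    intro ε hε
    have hev : ∀ᶠ w in 𝓝[Metric.closedBall (0 : ℂ) 1] τ, dist (Ph φ w) (Ph φ τ) < ε / 2 :=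
      (Metric.tendsto_nhds.1 hct.tendsto) _ (half_pos hε)
    obtain ⟨δ, hδ, hball⟩ := Metric.mem_nhdsWithin_iff.1 hev
    have hnear : ∀ᶠ s : ℝ in 𝓝[<] 1, 1 - s ^ 2 < δ / 2 := by
      have hcc : Continuous fun s : ℝ => 1 - s ^ 2 := by fun_prop
      have := (hcc.tendsto 1).mono_left (nhdsWithin_le_nhds (s := Iio 1))
      simp only [one_pow, sub_self] at this
      exact this.eventually (gt_mem_nhds (half_pos hδ))
    filter_upwards [hseg, hnear] with s hs hsn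
    set z : ℂ := (s : ℂ) ^ 2 * τ with hz
    have hr : 0 < 1 - s ^ 2 := by nlinarith [hs.1, hs.2]
    have hzn : ‖z‖ = s ^ 2 := by
      rw [hz, norm_mul, norm_pow, hτ, mul_one, Complex.norm_real, Real.norm_of_nonneg hs.1.le]
    have hzτ : ‖z - τ‖ = 1 - s ^ 2 := by
      have : z - τ = ((s ^ 2 - 1 : ℝ) : ℂ) * τ := by
        rw [hz]; push_cast; ring
      rw [this, norm_mul, hτ, mul_one, Complex.norm_real, Real.norm_eq_abs, abs_of_neg (by linarith)]
      ring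
    have hsub : Metric.ball z (1 - s ^ 2) ⊆ Metric.ball 0 1 := by
      intro w hw
      rw [mem_ball_iff_norm] at hw
      rw [mem_ball_zero_iff]
      calc ‖w‖ = ‖(w - z) + z‖ := by rw [sub_add_cancel]
        _ ≤ ‖w - z‖ + ‖z‖ := norm_add_le _ _
        _ < 1 := by rw [hzn]; linarith
    have hsubc : Metric.closedBall z (1 - s ^ 2) ⊆ Metric.closedBall 0 1 := by
      intro w hw
      rw [mem_closedBall_iff_norm] at hw
      rw [mem_closedBall_zero_iff]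
      calc ‖w‖ = ‖(w - z) + z‖ := by rw [sub_add_cancel]
        _ ≤ ‖w - z‖ + ‖z‖ := norm_add_le _ _
        _ ≤ 1 := by rw [hzn]; linarith
    have hd : DiffContOnCl ℂ (fun w => Ph φ w - Ph φ τ) (Metric.ball z (1 - s ^ 2)) := by
      refine ⟨((Ph_diff hφ).mono hsub).sub_const _, ?_⟩
      rw [closure_ball _ hr.ne']
      exact (hc.mono hsubc).sub continuousOn_const
    have hC : ∀ w ∈ Metric.sphere z (1 - s ^ 2), ‖Ph φ w - Ph φ τ‖ ≤ ε / 2 := by
      intro w hw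
      have hw1 : w ∈ Metric.closedBall (0 : ℂ) 1 := hsubc (Metric.sphere_subset_closedBall hw)
      rw [mem_sphere_iff_norm] at hw
      have hw2 : dist w τ < δ := by
        rw [dist_eq_norm]
        calc ‖w - τ‖ = ‖(w - z) + (z - τ)‖ := by rw [sub_add_sub_cancel]
          _ ≤ ‖w - z‖ + ‖z - τ‖ := norm_add_le _ _
          _ < δ := by rw [hw, hzτ]; linarith
      have : dist (Ph φ w) (Ph φ τ) < ε / 2 := hball ⟨hw2, hw1⟩
      rw [dist_eq_norm] at this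
      exact this.le
    have hcauchy := Complex.norm_deriv_le_of_forall_mem_sphere_norm_le hr hd hC
    rw [deriv_sub_const] at hcauchy
    rw [dist_zero_right, norm_mul]
    have e1 : ‖(1 : ℂ) - (s : ℂ) ^ 2‖ = 1 - s ^ 2 := by
      have : (1 : ℂ) - (s : ℂ) ^ 2 = ((1 - s ^ 2 : ℝ) : ℂ) := by push_cast; ring
      rw [this, Complex.norm_real, Real.norm_of_nonneg hr.le]
    rw [e1]
    calc (1 - s ^ 2) * ‖deriv (Ph φ) z‖ ≤ (1 - s ^ 2) * (ε / 2 / (1 - s ^ 2)) := by gcongr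
      _ = ε / 2 := by field_simp
      _ < ε := half_lt_self hε
  have h3 := h2.add h1
  rw [zero_add] at h3
  exact h3

/-- the symbol of the area average -/
lemma sd_eq (hφ : DiffContOnCl ℂ φ (Metric.ball 0 1))
    (hfin : ∫⁻ c in Metric.ball (0 : ℂ) 1, ‖P2 φ c‖ₑ ≠ ∞) (ξ : ℂ) (hξ : ξ ≠ 0) :
    sy nd zd (gd φ) ξ = φ (bs ξ) - φ 0 := by
  have hb := bs_norm ξ hξ
  have hg : Integrable (fun x => gd φ x * at' (zd x) ξ) nd := by
    refine (gd_int hfin).mono ?_ (Eventually.of_forall fun x => ?_)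
    · exact ((gd_meas φ).mul (at_meas.comp (zd_meas.prodMk measurable_const))).aestronglyMeasurable
    · rw [norm_mul]
      calc ‖gd φ x‖ * ‖at' (zd x) ξ‖ ≤ ‖gd φ x‖ * 1 := by gcongr; exact at_norm _ _
        _ = _ := mul_one _
  have hi : ∀ ρ ∈ Ioo (0 : ℝ) 1, ∫ θ in Ioo (-π) π, gd φ (ρ, θ) * at' (zd (ρ, θ)) ξ
      = 2 * ρ * (1 - (ρ : ℂ) ^ 2) * bs ξ * P2 φ ((ρ : ℂ) ^ 2 * bs ξ) := fun ρ hρ =>
    inner_int hφ hρ.1 hρ.2 ξ hξ
  have hint : IntervalIntegrable (fun ρ : ℝ => 2 * ρ * (1 - (ρ : ℂ) ^ 2) * bs ξ *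
      P2 φ ((ρ : ℂ) ^ 2 * bs ξ)) volume 0 1 := by
    rw [intervalIntegrable_iff_integrableOn_Ioo_of_le zero_le_one]
    have h := hg.integral_prod_left
    refine IntegrableOn.congr_fun (f := fun ρ : ℝ => ∫ θ in Ioo (-π) π,
      gd φ (ρ, θ) * at' (zd (ρ, θ)) ξ) h (fun ρ hρ => hi ρ hρ) measurableSet_Ioo
  have h1 : sy nd zd (gd φ) ξ = ∫ ρ in (0 : ℝ)..1, 2 * ρ * (1 - (ρ : ℂ) ^ 2) * bs ξ *
      P2 φ ((ρ : ℂ) ^ 2 * bs ξ) := by
    unfold sy
    rw [intervalIntegral.integral_of_le zero_le_one, integral_Ioc_eq_integral_Ioo]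
    rw [nd, integral_prod _ hg]
    exact setIntegral_congr_fun measurableSet_Ioo hi
  rw [h1]
  have hnorm : ∀ ρ ∈ Ioo (0 : ℝ) 1, ‖(ρ : ℂ)‖ < 1 := by
    intro ρ hρ
    rw [Complex.norm_real, Real.norm_of_nonneg hρ.1.le]
    exact hρ.2
  have hz : Tendsto (fun s : ℝ => kr φ (bs ξ) s) (𝓝[>] 0) (𝓝 (φ 0)) := by
    have hc : ContinuousAt (kr φ (bs ξ)) 0 :=
      (kr_deriv hφ hb (s := 0) (by simp)).continuousAt
    have h2 : Tendsto (fun s : ℝ => (s : ℂ)) (𝓝[>] 0) (𝓝 0) := by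
      have := (Complex.continuous_ofReal.tendsto 0).mono_left (nhdsWithin_le_nhds (s := Ioi 0))
      simpa using this
    have h3 := hc.tendsto.comp h2
    rw [kr_zero hφ] at h3
    exact h3
  exact intervalIntegral.integral_eq_sub_of_hasDerivAt_of_tendsto zero_lt_one
    (fun ρ hρ => (kr_deriv hφ hb (hnorm ρ hρ)).comp_ofReal) hint hz (kr_one hφ hb)

/-- **the functional calculus on the minimal Moebius invariant space** -/
theorem area_bound {p : ℝ} (hp : 1 ≤ p) {K : ℝ≥0∞}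
    (hb : ∀ f : 𝓢(ℂ, ℂ), eLpNorm (T bs f) (ENNReal.ofReal p) volume
      ≤ K * eLpNorm f (ENNReal.ofReal p) volume)
    (hφ : DiffContOnCl ℂ φ (Metric.ball 0 1))
    (hfin : ∫⁻ c in Metric.ball (0 : ℂ) 1, ‖P2 φ c‖ₑ ≠ ∞) (f : 𝓢(ℂ, ℂ)) :
    eLpNorm (T (fun ξ => φ (bs ξ) - φ 0) f) (ENNReal.ofReal p) volume
      ≤ (ENNReal.ofReal π⁻¹ * ∫⁻ c in Metric.ball (0 : ℂ) 1, ‖P2 φ c‖ₑ) *
        (K * eLpNorm f (ENNReal.ofReal p) volume) := by
  rw [← gd_mass, ← T_congr (sd_eq hφ hfin) f]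
  exact sy_bound hp hb zd_meas zd_norm (gd_int hfin) (gd_meas φ) f

end Pool.Agent.Q299.FC
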