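import Pool.Agent.Q299.FC.D
import Pool.Agent.Q299.FC.C

/-! Linear combinations of the powers. -/

set_option autoImplicit false
open MeasureTheory Filter Topology Set Real
open scoped FourierTransform SchwartzMap ENNReal ComplexConjugate

namespace Pool.Agent.Q299.FC

open Pool.Agent.TH55.PowA

lemma adm_pow (n : ℕ) : Adm (fun ξ => bs ξ ^ n) :=
  ⟨bs_meas.pow_const n, fun ξ => by rw [norm_pow]; exact pow_le_one₀ (norm_nonneg _) (bs_norm_le ξ)⟩

/-- the polynomial of the coefficients, divided by the variable -/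
noncomputable def hp' (a : ℕ → ℂ) (n : ℕ) : Polynomial ℂ :=
  ∑ k ∈ Finset.Icc 1 n, Polynomial.C (a k) * Polynomial.X ^ (k - 1)

lemma hp_deg (a : ℕ → ℂ) (n : ℕ) (hn : 1 ≤ n) : (hp' a n).natDegree ≤ n - 1 := by
  unfold hp'
  refine Polynomial.natDegree_sum_le_of_forall_le _ _ fun k hk => ?_
  rw [Finset.mem_Icc] at hk
  refine (Polynomial.natDegree_C_mul_X_pow_le _ _).trans ?_
  omega

lemma hp_eval (a : ℕ → ℂ) (n : ℕ) (w : ℂ) :
    w * (hp' a n).eval w = ∑ k ∈ Finset.Icc 1 n, a k * w ^ k := by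
  unfold hp'
  rw [Polynomial.eval_finsetSum, Finset.mul_sum]
  refine Finset.sum_congr rfl fun k hk => ?_
  rw [Finset.mem_Icc] at hk
  simp only [Polynomial.eval_mul, Polynomial.eval_C, Polynomial.eval_pow, Polynomial.eval_X]
  obtain ⟨j, rfl⟩ : ∃ j, k = j + 1 := ⟨k - 1, by omega⟩
  simp only [Nat.add_sub_cancel, pow_succ]
  ring

lemma mean_radius (a : ℕ → ℂ) (n : ℕ) {R : ℝ} (hR : 0 < R) :
    circleAverage (fun w => ‖∑ k ∈ Finset.Icc 1 n, a k * w ^ k‖) 0 R
      = R * circleAverage (fun w => ‖(hp' a n).eval w‖) 0 R := by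
  have e : ∀ θ : ℝ, ‖∑ k ∈ Finset.Icc 1 n, a k * (circleMap 0 R θ) ^ k‖
      = R * ‖(hp' a n).eval (circleMap 0 R θ)‖ := by
    intro θ
    rw [← hp_eval, norm_mul, norm_circleMap_zero, abs_of_pos hR]
  rw [circleAverage_def, circleAverage_def, smul_eq_mul, smul_eq_mul]
  simp only [e]
  rw [intervalIntegral.integral_const_mul]
  ring

/-- growth of the mean modulus -/
lemma mean_growth' (a : ℕ → ℂ) (n : ℕ) (hn : 1 ≤ n) {R : ℝ} (hR : 1 ≤ R) :
    circleAverage (fun w => ‖∑ k ∈ Finset.Icc 1 n, a k * w ^ k‖) 0 R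
      ≤ R ^ n * circleAverage (fun w => ‖∑ k ∈ Finset.Icc 1 n, a k * w ^ k‖) 0 1 := by
  have hR0 : 0 < R := by linarith
  rw [mean_radius a n hR0, mean_radius a n one_pos, one_mul]
  have := mean_growth (hp_deg a n hn) hR
  calc R * circleAverage (fun w => ‖(hp' a n).eval w‖) 0 R
      ≤ R * (R ^ (n - 1) * circleAverage (fun w => ‖(hp' a n).eval w‖) 0 1) := by gcongr
    _ = R ^ n * circleAverage (fun w => ‖(hp' a n).eval w‖) 0 1 := by
        rw [← mul_assoc, ← pow_succ', Nat.sub_add_cancel hn]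

lemma comb_eq (a : ℕ → ℂ) (n : ℕ) (f : 𝓢(ℂ, ℂ)) :
    (fun z => ∑ k ∈ Finset.Icc 1 n, a k * T (fun ξ => bs ξ ^ k) f z)
      = T (fun ξ => (∑ k ∈ Finset.Icc 1 n, a k * (bs ξ) ^ k)) f := by
  funext z
  exact (T_sum (Finset.Icc 1 n) a (fun k ξ => bs ξ ^ k) (fun k _ => adm_pow k) f z).symm

lemma Cn_nonneg (n : ℕ) (hn : 1 ≤ n) : 0 ≤ Cn n := by
  have hnr : (1 : ℝ) ≤ n := by exact_mod_cast hn
  unfold Cn
  have : 0 ≤ ((n : ℝ) + 1) / ((n : ℝ) - 1) := by apply div_nonneg <;> linarith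
  positivity

/-- the optimal radius -/
lemma opt_radius (n : ℕ) (hn : 2 ≤ n) : ∃ R : ℝ, 1 < R ∧ R / (R ^ 2 - 1) * R ^ n = Cn n := by
  have hnr : (2 : ℝ) ≤ n := by exact_mod_cast hn
  have h1 : (0 : ℝ) < (n : ℝ) - 1 := by linarith
  have hq : (1 : ℝ) < ((n : ℝ) + 1) / ((n : ℝ) - 1) := by
    rw [one_lt_div h1]; linarith
  refine ⟨Real.sqrt (((n : ℝ) + 1) / ((n : ℝ) - 1)), ?_, ?_⟩
  · rw [Real.lt_sqrt (by norm_num)]
    simpa using hq
  · set Q := ((n : ℝ) + 1) / ((n : ℝ) - 1) with hQ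
    have hQ0 : 0 < Q := by linarith
    have hs : Real.sqrt Q ^ 2 = Q := Real.sq_sqrt hQ0.le
    have hs0 : 0 < Real.sqrt Q := Real.sqrt_pos.2 hQ0
    have e1 : Real.sqrt Q * Real.sqrt Q ^ n = Q * Q ^ (((n : ℝ) - 1) / 2) := by
      rw [← pow_succ', Real.sqrt_eq_rpow, ← Real.rpow_natCast, ← Real.rpow_mul hQ0.le]
      nth_rewrite 2 [← Real.rpow_one Q]
      rw [← Real.rpow_add hQ0]
      congr 1
      push_cast
      ring
    rw [hs, div_mul_eq_mul_div, e1]
    unfold Cn
    rw [← hQ]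
    have e2 : Q / (Q - 1) = ((n : ℝ) + 1) / 2 := by
      rw [hQ]
      have : (n : ℝ) - 1 ≠ 0 := h1.ne'
      have h3 : ((n : ℝ) + 1) / ((n : ℝ) - 1) - 1 ≠ 0 := by
        rw [← hQ]; linarith
      field_simp
      ring
    rw [mul_div_right_comm, e2]

/-- **all linear combinations of the powers** -/
theorem comb_bound {p : ℝ} (hp : 1 ≤ p) {K : ℝ} (hK : 0 ≤ K)
    (hb : ∀ f : 𝓢(ℂ, ℂ), eLpNorm (T bs f) (ENNReal.ofReal p) volume
      ≤ ENNReal.ofReal K * eLpNorm f (ENNReal.ofReal p) volume)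
    (n : ℕ) (hn : 1 ≤ n) (a : ℕ → ℂ) (f : 𝓢(ℂ, ℂ)) :
    eLpNorm (fun z => ∑ k ∈ Finset.Icc 1 n, a k * T (fun ξ => bs ξ ^ k) f z)
        (ENNReal.ofReal p) volume
      ≤ ENNReal.ofReal (Cn n * K * circleAverage (fun w => ‖∑ k ∈ Finset.Icc 1 n, a k * w ^ k‖) 0 1)
        * eLpNorm f (ENNReal.ofReal p) volume := by
  have hM0 : 0 ≤ circleAverage (fun w => ‖∑ k ∈ Finset.Icc 1 n, a k * w ^ k‖) 0 1 :=
    circleAverage_nonneg_of_nonneg fun w _ => norm_nonneg _
  rcases Nat.lt_or_ge 1 n with h2 | h2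
  · obtain ⟨R, hR, hRC⟩ := opt_radius n h2
    have hR0 : 0 < R := by linarith
    have hRR : 0 < R ^ 2 - 1 := by nlinarith
    rw [comb_eq]
    set q : ℂ → ℂ := fun w => ∑ k ∈ Finset.Icc 1 n, a k * w ^ k with hq
    have hq0 : q 0 = 0 := by
      rw [hq]
      simp only
      refine Finset.sum_eq_zero fun k hk => ?_
      rw [Finset.mem_Icc] at hk
      rw [zero_pow (by omega), mul_zero]
    have hqd : DiffContOnCl ℂ q (Metric.ball 0 R) := by
      apply Differentiable.diffContOnCl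
      rw [hq]
      fun_prop
    have h := disc_bound hp hb hR hqd f
    rw [hq0] at h
    simp only [sub_zero] at h
    have e : (fun ξ => ∑ k ∈ Finset.Icc 1 n, a k * bs ξ ^ k) = fun ξ => q (bs ξ) := rfl
    rw [e]
    refine h.trans ?_
    rw [← mul_assoc, ← ENNReal.ofReal_mul (mul_nonneg (by positivity)
      (circleAverage_nonneg_of_nonneg fun w _ => norm_nonneg _))]
    refine mul_le_mul_left (ENNReal.ofReal_le_ofReal ?_) _
    have hg := mean_growth' a n hn hR.le
    calc R / (R ^ 2 - 1) * circleAverage (fun w => ‖q w‖) 0 R * K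
        ≤ R / (R ^ 2 - 1) * (R ^ n *
          circleAverage (fun w => ‖∑ k ∈ Finset.Icc 1 n, a k * w ^ k‖) 0 1) * K := by
          gcongr
      _ = (R / (R ^ 2 - 1) * R ^ n) * K *
          circleAverage (fun w => ‖∑ k ∈ Finset.Icc 1 n, a k * w ^ k‖) 0 1 := by ring
      _ = _ := by rw [hRC]
  · have h1 : n = 1 := by omega
    subst h1
    have e1 : (fun z => ∑ k ∈ Finset.Icc 1 1, a k * T (fun ξ => bs ξ ^ k) f z)
        = a 1 • T bs f := by
      funext z
      simp
    have e2 : circleAverage (fun w => ‖∑ k ∈ Finset.Icc 1 1, a k * w ^ k‖) 0 1 = ‖a 1‖ := by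
      refine circleAverage_const_on_circle fun w hw => ?_
      rw [abs_one, mem_sphere_zero_iff_norm] at hw
      simp [hw]
    rw [e1, e2, eLpNorm_const_smul, Cn_one, one_mul, mul_comm K, ENNReal.ofReal_mul (norm_nonneg _),
      mul_assoc, ofReal_norm]
    gcongr
    exact hb f

/-- mean values of the monomials -/
lemma mean_mono (k l : ℕ) :
    circleAverage (fun w : ℂ => w ^ k * conj (w ^ l)) 0 1 = if k = l then 1 else 0 := by
  have h1 : ∀ w ∈ Metric.sphere (0 : ℂ) |1|, w * conj w = 1 := by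
    intro w hw
    rw [abs_one, mem_sphere_zero_iff_norm] at hw
    rw [c_conj, hw]
    simp
  split_ifs with h
  · subst h
    refine circleAverage_const_on_circle fun w hw => ?_
    rw [map_pow, ← mul_pow, h1 w hw, one_pow]
  · rcases Nat.lt_or_gt_of_ne h with h' | h'
    · have e : circleAverage (fun w : ℂ => w ^ k * conj (w ^ l)) 0 1
          = circleAverage (fun w : ℂ => conj (w ^ (l - k))) 0 1 := by
        refine circleAverage_congr_sphere fun w hw => ?_
        have : w ^ l = w ^ (l - k) * w ^ k := by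
          rw [← pow_add]; congr 1; omega
        rw [this, map_mul, map_pow, map_pow, mul_left_comm, ← mul_pow, h1 w hw, one_pow, mul_one]
      have e2 : circleAverage (fun w : ℂ => w ^ (l - k)) 0 1 = 0 := by
        have hd : DiffContOnCl ℂ (fun w : ℂ => w ^ (l - k)) (Metric.ball 0 |1|) := by
          apply Differentiable.diffContOnCl
          fun_prop
        rw [hd.circleAverage, zero_pow (by omega)]
      rw [e, circleAverage_def]
      rw [circleAverage_def] at e2
      simp only [intervalIntegral.intervalIntegral_eq_integral_uIoc] at e2 ⊢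
      rw [integral_conj]
      have := congrArg (starRingEnd ℂ) e2
      simp only [Complex.real_smul, map_mul, Complex.conj_ofReal, map_zero] at this ⊢
      exact this
    · have e : circleAverage (fun w : ℂ => w ^ k * conj (w ^ l)) 0 1
          = circleAverage (fun w : ℂ => w ^ (k - l)) 0 1 := by
        refine circleAverage_congr_sphere fun w hw => ?_
        have : w ^ k = w ^ (k - l) * w ^ l := by
          rw [← pow_add]; congr 1; omega
        rw [this, map_pow, mul_assoc, ← mul_pow, h1 w hw, one_pow, mul_one]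
      have hd : DiffContOnCl ℂ (fun w : ℂ => w ^ (k - l)) (Metric.ball 0 |1|) := by
        apply Differentiable.diffContOnCl
        fun_prop
      rw [e, hd.circleAverage, zero_pow (by omega)]

end Pool.Agent.Q299.FC
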