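import Pool.Agent.Q299.FC.E

/-! The square sum of the coefficients. -/

set_option autoImplicit false
open MeasureTheory Filter Topology Set Real
open scoped FourierTransform SchwartzMap ENNReal ComplexConjugate

namespace Pool.Agent.Q299.FC

variable (a : ℕ → ℂ) (n : ℕ)

/-- the polynomial -/
noncomputable def qa (w : ℂ) : ℂ := ∑ k ∈ Finset.Icc 1 n, a k * w ^ k

lemma qa_cont : Continuous (qa a n) := by
  unfold qa
  fun_prop

lemma parseval_c : circleAverage (fun w => qa a n w * conj (qa a n w)) 0 1
    = ∑ k ∈ Finset.Icc 1 n, (‖a k‖ ^ 2 : ℂ) := by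
  have e : (fun w => qa a n w * conj (qa a n w)) = fun w => ∑ k ∈ Finset.Icc 1 n,
      ∑ l ∈ Finset.Icc 1 n, (a k * conj (a l)) • (w ^ k * conj (w ^ l)) := by
    funext w
    unfold qa
    rw [map_sum, Finset.sum_mul_sum]
    refine Finset.sum_congr rfl fun k _ => Finset.sum_congr rfl fun l _ => ?_
    rw [map_mul, smul_eq_mul]
    ring
  have hc : ∀ k l : ℕ, Continuous fun w : ℂ => (a k * conj (a l)) • (w ^ k * conj (w ^ l)) := by
    intro k l
    fun_prop
  rw [e, circleAverage_fun_sum]
  · refine Finset.sum_congr rfl fun k hk => ?_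
    rw [circleAverage_fun_sum]
    · rw [Finset.sum_eq_single k]
      · rw [circleAverage_fun_smul, mean_mono, if_pos rfl, smul_eq_mul, mul_one,
          Complex.mul_conj, Complex.normSq_eq_norm_sq]
        push_cast
        rfl
      · intro l _ hl
        rw [circleAverage_fun_smul, mean_mono, if_neg (Ne.symm hl), smul_zero]
      · intro h
        exact absurd hk h
    · intro l _
      exact ((hc k l).continuousOn).circleIntegrable'
  · intro k _
    exact ((continuous_finsetSum _ fun l _ => hc k l).continuousOn).circleIntegrable'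

lemma parseval : circleAverage (fun w => ‖qa a n w‖ ^ 2) 0 1 = ∑ k ∈ Finset.Icc 1 n, ‖a k‖ ^ 2 := by
  have h := parseval_c a n
  have e : ∀ w, qa a n w * conj (qa a n w) = ((‖qa a n w‖ ^ 2 : ℝ) : ℂ) := fun w =>
    Pool.Agent.TH55.PowA.c_conj _
  simp only [e] at h
  rw [circleAverage_def, intervalIntegral.integral_ofReal, Complex.real_smul] at h
  rw [circleAverage_def, smul_eq_mul]
  exact_mod_cast h

/-- the mean modulus is at most the square root of the square sum -/
lemma mean_le_l2 : circleAverage (fun w => ‖qa a n w‖) 0 1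
    ≤ Real.sqrt (∑ k ∈ Finset.Icc 1 n, ‖a k‖ ^ 2) := by
  set A : ℝ := ∑ k ∈ Finset.Icc 1 n, ‖a k‖ ^ 2 with hA
  have hA0 : 0 ≤ A := Finset.sum_nonneg fun k _ => sq_nonneg _
  rcases hA0.eq_or_lt with h | h
  · have h0 : ∀ k ∈ Finset.Icc 1 n, a k = 0 := by
      intro k hk
      have h1 := (Finset.sum_eq_zero_iff_of_nonneg (fun k _ => sq_nonneg ‖a k‖)).1 h.symm k hk
      exact norm_eq_zero.1 (pow_eq_zero_iff two_ne_zero |>.1 h1)
    have hq : ∀ w, ‖qa a n w‖ = 0 := by
      intro w
      unfold qa
      rw [Finset.sum_eq_zero fun k hk => by rw [h0 k hk, zero_mul], norm_zero]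
    simp only [hq]
    rw [circleAverage_const]
    exact Real.sqrt_nonneg _
  · have hs : 0 < Real.sqrt A := Real.sqrt_pos.2 h
    have hss : Real.sqrt A * Real.sqrt A = A := Real.mul_self_sqrt hA0
    have hci : CircleIntegrable (fun w => ‖qa a n w‖) 0 1 :=
      ((qa_cont a n).norm.continuousOn).circleIntegrable'
    have hci2 : CircleIntegrable (fun w => ‖qa a n w‖ ^ 2) 0 1 :=
      (((qa_cont a n).norm.pow 2).continuousOn).circleIntegrable'
    have hci3 : CircleIntegrable (fun w => (2 * Real.sqrt A)⁻¹ • ‖qa a n w‖ ^ 2 + Real.sqrt A / 2) 0 1 := by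
      have : Continuous fun w => (2 * Real.sqrt A)⁻¹ • ‖qa a n w‖ ^ 2 + Real.sqrt A / 2 := by
        have := qa_cont a n
        fun_prop
      exact this.continuousOn.circleIntegrable'
    have h1 : circleAverage (fun w => ‖qa a n w‖) 0 1
        ≤ circleAverage (fun w => (2 * Real.sqrt A)⁻¹ • ‖qa a n w‖ ^ 2 + Real.sqrt A / 2) 0 1 := by
      refine circleAverage_mono hci hci3 fun w _ => ?_
      rw [smul_eq_mul, inv_mul_eq_div, div_add_div _ _ (by positivity) (by positivity),
        le_div_iff₀ (by positivity)]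
      nlinarith [sq_nonneg (‖qa a n w‖ - Real.sqrt A)]
    refine h1.trans (le_of_eq ?_)
    have hci4 : CircleIntegrable (fun w => (2 * Real.sqrt A)⁻¹ • ‖qa a n w‖ ^ 2) 0 1 := by
      have : Continuous fun w => (2 * Real.sqrt A)⁻¹ • ‖qa a n w‖ ^ 2 := by
        have := qa_cont a n
        fun_prop
      exact this.continuousOn.circleIntegrable'
    rw [circleAverage_fun_add hci4 (circleIntegrable_const _ _ _),
      circleAverage_fun_smul, circleAverage_const, parseval, ← hA, smul_eq_mul]
    rw [mul_inv]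
    field_simp
    nlinarith

end Pool.Agent.Q299.FC
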